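import Pool.Agent.helper20.BlockSub

namespace Pool.Agent.Helper20

open Finset Function

variable {B : BlockData} {H : Type*} [NormedAddCommGroup H] [InnerProductSpace ℂ H]
variable (b : HilbertBasis (Σ n, B.Y n) ℂ H)

theorem sum_norm_blk_le {κ : Type*} {e : κ → H} (he : Orthonormal ℂ e) (n : ℕ) (S : Finset κ) :
    ∑ k ∈ S, ‖blk b n (e k)‖ ^ 2 ≤ Fintype.card (B.Y n) := by
  have h1 : ∀ k, ‖blk b n (e k)‖ ^ 2 = ∑ y : B.Y n, ‖inner ℂ (e k) (b ⟨n, y⟩)‖ ^ 2 := by
    intro k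
    rw [EuclideanSpace.norm_sq_eq]
    apply Finset.sum_congr rfl
    intro y _
    rw [blk_apply, ← norm_inner_symm]
  simp only [h1]
  rw [Finset.sum_comm]
  calc ∑ y : B.Y n, ∑ k ∈ S, ‖inner ℂ (e k) (b ⟨n, y⟩)‖ ^ 2
      ≤ ∑ y : B.Y n, ‖b ⟨n, y⟩‖ ^ 2 := Finset.sum_le_sum fun y _ => he.sum_inner_products_le _
    _ = ∑ y : B.Y n, (1 : ℝ) := by
        apply Finset.sum_congr rfl
        intro y _
        rw [b.orthonormal.1]; norm_num
    _ = _ := by simp

/-- The indices `k` such that `e k` has large mass on the block `n`. -/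
def heavy {κ : Type*} (e : κ → H) (n : ℕ) : Set κ :=
  {k | (1 / 2 : ℝ) ^ (n + 3) ≤ ‖blk b n (e k)‖ ^ 2}

theorem card_heavy_le {κ : Type*} {e : κ → H} (he : Orthonormal ℂ e) (n : ℕ) (S : Finset κ)
    (hS : ∀ k ∈ S, k ∈ heavy b e n) : S.card ≤ 2 ^ (n + 3) * Fintype.card (B.Y n) := by
  have h1 := sum_norm_blk_le b he n S
  have h2 : (S.card : ℝ) * (1 / 2 : ℝ) ^ (n + 3) ≤ ∑ k ∈ S, ‖blk b n (e k)‖ ^ 2 := by
    rw [← nsmul_eq_mul]
    exact Finset.card_nsmul_le_sum S _ _ hS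
  have h3 : (S.card : ℝ) ≤ 2 ^ (n + 3) * Fintype.card (B.Y n) := by
    have h4 : (S.card : ℝ) * (1 / 2 : ℝ) ^ (n + 3) ≤ Fintype.card (B.Y n) := h2.trans h1
    have h5 : (S.card : ℝ) = 2 ^ (n + 3) * ((S.card : ℝ) * (1 / 2 : ℝ) ^ (n + 3)) := by
      rw [one_div, inv_pow]
      field_simp
    rw [h5]
    gcongr
  exact_mod_cast h3

theorem finite_heavy {κ : Type*} {e : κ → H} (he : Orthonormal ℂ e) (n : ℕ) :
    (heavy b e n).Finite := by
  by_contra hinf
  have hinf' : (heavy b e n).Infinite := hinf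
  obtain ⟨t, ht, hcard⟩ := hinf'.exists_subset_card_eq (2 ^ (n + 3) * Fintype.card (B.Y n) + 1)
  have := card_heavy_le b he n t (fun k hk => ht hk)
  omega

/-- The bad choices at level `n`. -/
def bad {κ : Type*} (e : κ → H) (n : ℕ) (i : Fin n → Bool) : Set (B.Θ n) :=
  {c | ∃ k ∈ heavy b e n, 1 / 2 * ‖blk b n (e k)‖ ^ 2 <
    ‖(B.K n i c).starProjection (blk b n (e k))‖ ^ 2}

theorem card_filter_le (n : ℕ) (i : Fin n → Bool) (x : EuclideanSpace ℂ (B.Y n))
    (S : Finset (B.Θ n)) (hS : ∀ c ∈ S, 1 / 2 * ‖x‖ ^ 2 < ‖(B.K n i c).starProjection x‖ ^ 2) :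
    S.card ≤ 3 := by
  by_cases hne : S.Nonempty
  · have h1 := sum_norm_sq_starProjection_le (fun c => B.K n i c) (η := 1 / 4) (by norm_num)
      (fun c c' hcc u hu v hv => B.almost n i c c' hcc u hu v hv) S x
    have h2 : (S.card : ℝ) * (1 / 2 * ‖x‖ ^ 2) < ∑ c ∈ S, ‖(B.K n i c).starProjection x‖ ^ 2 := by
      rw [← nsmul_eq_mul, ← Finset.sum_const]
      exact Finset.sum_lt_sum_of_nonempty hne hS
    have h3 : (S.card : ℝ) * (1 / 2 * ‖x‖ ^ 2) < (1 + 1 / 4 * S.card) * ‖x‖ ^ 2 := lt_of_lt_of_le h2 h1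
    have h4 : 0 < ‖x‖ ^ 2 := by
      by_contra h
      have h5 : ‖x‖ ^ 2 = 0 := le_antisymm (not_lt.mp h) (by positivity)
      rw [h5] at h3
      simp at h3
    have h6 : (S.card : ℝ) < 4 := by
      by_contra h7
      push Not at h7
      nlinarith
    have h8 : S.card < 4 := by exact_mod_cast h6
    omega
  · rw [Finset.not_nonempty_iff_eq_empty] at hne
    simp [hne]

theorem exists_good {κ : Type*} {e : κ → H} (he : Orthonormal ℂ e) (n : ℕ) (i : Fin n → Bool) :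
    ∃ g : (Fin n → Bool) → B.Θ n, Injective g ∧ ∀ s, g s ∉ bad b e n i := by
  classical
  have hfin := finite_heavy b he n
  let Kn : Finset κ := hfin.toFinset
  have hKn : Kn.card ≤ 2 ^ (n + 3) * Fintype.card (B.Y n) :=
    card_heavy_le b he n Kn (fun k hk => hfin.mem_toFinset.mp hk)
  let F : κ → Finset (B.Θ n) := fun k => Finset.univ.filter (fun c =>
    1 / 2 * ‖blk b n (e k)‖ ^ 2 < ‖(B.K n i c).starProjection (blk b n (e k))‖ ^ 2)
  have hF : ∀ k, (F k).card ≤ 3 := fun k =>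
    card_filter_le n i (blk b n (e k)) (F k) (fun c hc => (Finset.mem_filter.mp hc).2)
  let Bd : Finset (B.Θ n) := Kn.biUnion F
  have hBd : Bd.card ≤ Kn.card * 3 := Finset.card_biUnion_le_card_mul _ _ _ (fun k _ => hF k)
  have hmem : ∀ c, c ∈ bad b e n i → c ∈ Bd := by
    rintro c ⟨k, hk, hc⟩
    rw [Finset.mem_biUnion]
    exact ⟨k, hfin.mem_toFinset.mpr hk, Finset.mem_filter.mpr ⟨Finset.mem_univ _, hc⟩⟩
  have hcard : Fintype.card (Fin n → Bool) ≤ Fintype.card {c // c ∉ Bd} := by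
    have h1 : Fintype.card {c // c ∉ Bd} = Fintype.card (B.Θ n) - Bd.card := by
      rw [Fintype.card_subtype_compl, Fintype.card_coe]
    rw [h1]
    have h2 := B.card_le n
    have h3 : Fintype.card (Fin n → Bool) = 2 ^ n := by simp
    have h4 : 0 < Fintype.card (B.Y n) := Fintype.card_pos
    rw [h3]
    have h5 : 2 ^ (n + 5) = 32 * 2 ^ n := by ring
    have h6 : 2 ^ (n + 3) = 8 * 2 ^ n := by ring
    rw [h5] at h2
    rw [h6] at hKn
    have h7 : 2 ^ n ≤ 2 ^ n * Fintype.card (B.Y n) := Nat.le_mul_of_pos_right _ h4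
    have h8 : 32 * 2 ^ n * Fintype.card (B.Y n) = 32 * (2 ^ n * Fintype.card (B.Y n)) := by ring
    have h9 : 8 * 2 ^ n * Fintype.card (B.Y n) = 8 * (2 ^ n * Fintype.card (B.Y n)) := by ring
    omega
  obtain ⟨f⟩ := Function.Embedding.nonempty_of_card_le hcard
  exact ⟨fun s => (f s).1, fun s t hst => f.injective (Subtype.ext hst),
    fun s hs => (f s).2 (hmem _ hs)⟩

/-- Key choice lemma: given an orthonormal family and tensor positions, there is a family of
choices indexed by the Cantor space, eventually different, and all avoiding the family. -/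
theorem exists_choices [CompleteSpace H] {κ : Type*} {e : κ → H} (he : Orthonormal ℂ e)
    (i : ∀ n, Fin n → Bool) :
    ∃ c : (ℕ → Bool) → ∀ n, B.Θ n,
      (∀ x x', x ≠ x' → ∃ n₀, ∀ n ≥ n₀, c x n ≠ c x' n) ∧
      ∀ x k, ‖(Msub b i (c x)).starProjection (e k)‖ ^ 2 ≤ 3 / 4 := by
  choose g hg hgood using fun n => exists_good b he n (i n)
  refine ⟨fun x n => g n (fun j => x j), ?_, ?_⟩
  · intro x x' hxx'
    obtain ⟨m, hm⟩ := Function.ne_iff.mp hxx'
    refine ⟨m + 1, fun n hn h => hm ?_⟩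
    have h1 := hg n h
    exact congrFun h1 ⟨m, by omega⟩
  · intro x k
    refine (norm_sq_proj_le b i _ (e k)).trans ?_
    have hgeo : HasSum (fun n : ℕ => (1 / 2 : ℝ) ^ (n + 3)) (1 / 4) := by
      have h1 := (hasSum_geometric_two).mul_left (1 / 8 : ℝ)
      have h2 : (fun n : ℕ => (1 / 2 : ℝ) ^ (n + 3)) = fun n => (1 / 8 : ℝ) * (1 / 2) ^ n := by
        funext n
        rw [pow_add]; ring
      rw [h2]
      have h3 : (1 / 4 : ℝ) = 1 / 8 * 2 := by norm_num
      rw [h3]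
      exact h1
    have h3 := hasSum_norm_blk b (e k)
    rw [he.1 k] at h3
    have h4 := (h3.mul_left (1 / 2)).add hgeo
    have h5 := (summable_mass b i (fun n => g n (fun j => x j)) (e k)).hasSum
    have h6 := hasSum_le (fun n => ?_) h5 h4
    · refine h6.trans (by norm_num)
    · by_cases hk : k ∈ heavy b e n
      · have h7 := hgood n (fun j => x j)
        have h8 : ¬ (1 / 2 * ‖blk b n (e k)‖ ^ 2 <
            ‖(B.K n (i n) (g n (fun j => x j))).starProjection (blk b n (e k))‖ ^ 2) :=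
          fun h => h7 ⟨k, hk, h⟩
        push Not at h8
        have h9 : (0 : ℝ) ≤ (1 / 2) ^ (n + 3) := by positivity
        unfold mass
        linarith
      · have h7 : ‖blk b n (e k)‖ ^ 2 < (1 / 2 : ℝ) ^ (n + 3) := not_le.mp hk
        have h8 := mass_le b i (fun n => g n (fun j => x j)) (e k) n
        have h9 : 0 ≤ ‖blk b n (e k)‖ ^ 2 := by positivity
        linarith

end Pool.Agent.Helper20
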