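import Pool.Agent.helper20.Blocks

namespace Pool.Agent.Helper20

open Finset Function

attribute [instance] BlockData.fY BlockData.fΘ BlockData.neY

variable {B : BlockData} {H : Type*} [NormedAddCommGroup H] [InnerProductSpace ℂ H]

/-- The `n`-th block of coordinates of a vector. -/
noncomputable def blk (b : HilbertBasis (Σ n, B.Y n) ℂ H) (n : ℕ) :
    H →L[ℂ] EuclideanSpace ℂ (B.Y n) :=
  (EuclideanSpace.equiv (B.Y n) ℂ).symm.toContinuousLinearMap ∘L
    ContinuousLinearMap.pi (fun y => innerSL ℂ (b ⟨n, y⟩))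

theorem blk_apply (b : HilbertBasis (Σ n, B.Y n) ℂ H) (n : ℕ) (x : H) (y : B.Y n) :
    blk b n x y = inner ℂ (b ⟨n, y⟩) x := by
  simp [blk]

theorem hasSum_inner_blk (b : HilbertBasis (Σ n, B.Y n) ℂ H) (x z : H) :
    HasSum (fun n => inner ℂ (blk b n x) (blk b n z)) (inner ℂ x z) := by
  have h := b.hasSum_inner_mul_inner x z
  have h2 := h.sigma (g := fun n => inner ℂ (blk b n x) (blk b n z)) ?_
  · exact h2
  · intro n
    have h3 : inner ℂ (blk b n x) (blk b n z)
        = ∑ y : B.Y n, inner ℂ x (b ⟨n, y⟩) * inner ℂ (b ⟨n, y⟩) z := by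
      rw [PiLp.inner_apply]
      apply Finset.sum_congr rfl
      intro y _
      rw [blk_apply, blk_apply, RCLike.inner_apply, inner_conj_symm, mul_comm]
    rw [h3]
    exact hasSum_fintype _

theorem hasSum_re_inner_blk (b : HilbertBasis (Σ n, B.Y n) ℂ H) (x z : H) :
    HasSum (fun n => (inner ℂ (blk b n x) (blk b n z)).re) (inner ℂ x z).re :=
  (Complex.reCLM.hasSum (hasSum_inner_blk b x z) :)

theorem hasSum_norm_blk (b : HilbertBasis (Σ n, B.Y n) ℂ H) (x : H) :
    HasSum (fun n => ‖blk b n x‖ ^ 2) (‖x‖ ^ 2) := by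
  have h := hasSum_re_inner_blk b x x
  have h1 : ∀ n, (inner ℂ (blk b n x) (blk b n x)).re = ‖blk b n x‖ ^ 2 := fun n =>
    inner_self_eq_norm_sq (𝕜 := ℂ) _
  have h2 : (inner ℂ x x).re = ‖x‖ ^ 2 := inner_self_eq_norm_sq (𝕜 := ℂ) _
  simp only [h1, h2] at h
  exact h

/-- The subspace of vectors all of whose blocks lie in the chosen subspaces. -/
noncomputable def Msub (b : HilbertBasis (Σ n, B.Y n) ℂ H) (i : ∀ n, Fin n → Bool)
    (c : ∀ n, B.Θ n) : Submodule ℂ H :=
  ⨅ n, (B.K n (i n) (c n)).comap (blk b n : H →ₗ[ℂ] EuclideanSpace ℂ (B.Y n))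

theorem mem_Msub {b : HilbertBasis (Σ n, B.Y n) ℂ H} {i : ∀ n, Fin n → Bool}
    {c : ∀ n, B.Θ n} {x : H} : x ∈ Msub b i c ↔ ∀ n, blk b n x ∈ B.K n (i n) (c n) := by
  simp [Msub, Submodule.mem_iInf]

theorem isClosed_Msub (b : HilbertBasis (Σ n, B.Y n) ℂ H) (i : ∀ n, Fin n → Bool)
    (c : ∀ n, B.Θ n) : IsClosed (Msub b i c : Set H) := by
  have : (Msub b i c : Set H) = ⋂ n, (blk b n) ⁻¹' (B.K n (i n) (c n) : Set _) := by
    ext x
    simp [mem_Msub]
  rw [this]
  exact isClosed_iInter fun n =>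
    (Submodule.closed_of_finiteDimensional (B.K n (i n) (c n))).preimage (blk b n).continuous

instance [CompleteSpace H] (b : HilbertBasis (Σ n, B.Y n) ℂ H) (i : ∀ n, Fin n → Bool)
    (c : ∀ n, B.Θ n) : (Msub b i c).HasOrthogonalProjection := by
  have := (isClosed_Msub b i c).completeSpace_coe
  infer_instance

section

variable [CompleteSpace H] (b : HilbertBasis (Σ n, B.Y n) ℂ H)

/-- mass of the projection of the block -/
noncomputable def mass (i : ∀ n, Fin n → Bool) (c : ∀ n, B.Θ n) (x : H) (n : ℕ) : ℝ :=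
  ‖(B.K n (i n) (c n)).starProjection (blk b n x)‖ ^ 2

theorem mass_nonneg (i : ∀ n, Fin n → Bool) (c : ∀ n, B.Θ n) (x : H) (n : ℕ) :
    0 ≤ mass b i c x n := by
  unfold mass; positivity

theorem mass_le (i : ∀ n, Fin n → Bool) (c : ∀ n, B.Θ n) (x : H) (n : ℕ) :
    mass b i c x n ≤ ‖blk b n x‖ ^ 2 := by
  unfold mass
  gcongr
  exact Submodule.norm_starProjection_apply_le _ _

theorem summable_mass (i : ∀ n, Fin n → Bool) (c : ∀ n, B.Θ n) (x : H) :
    Summable (mass b i c x) :=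
  Summable.of_nonneg_of_le (mass_nonneg b i c x) (mass_le b i c x) (hasSum_norm_blk b x).summable

theorem norm_sq_proj_le (i : ∀ n, Fin n → Bool) (c : ∀ n, B.Θ n) (x : H) :
    ‖(Msub b i c).starProjection x‖ ^ 2 ≤ ∑' n, mass b i c x n := by
  set z := (Msub b i c).starProjection x with hz
  have hzM : z ∈ Msub b i c := Submodule.starProjection_apply_mem _ _
  have h1 : (inner ℂ z x).re = ‖z‖ ^ 2 := by
    have := Submodule.re_inner_starProjection_eq_normSq (K := Msub b i c) (𝕜 := ℂ) x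
    rw [Submodule.coe_norm, ← Submodule.starProjection_apply] at this
    exact this
  have h2 := hasSum_re_inner_blk b z x
  rw [h1] at h2
  have h3 := hasSum_norm_blk b z
  have h4 := (summable_mass b i c x).hasSum
  have h5 : ∀ n, (inner ℂ (blk b n z) (blk b n x)).re
      ≤ 1 / 2 * (‖blk b n z‖ ^ 2 + mass b i c x n) := by
    intro n
    have h6 : blk b n z ∈ B.K n (i n) (c n) := mem_Msub.mp hzM n
    have h7 : inner ℂ (blk b n z) (blk b n x)
        = inner ℂ (blk b n z) ((B.K n (i n) (c n)).starProjection (blk b n x)) := by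
      rw [← Submodule.inner_starProjection_left_eq_right,
        Submodule.starProjection_eq_self_iff.mpr h6]
    rw [h7]
    have h8 : (inner ℂ (blk b n z) ((B.K n (i n) (c n)).starProjection (blk b n x))).re
        ≤ ‖blk b n z‖ * ‖(B.K n (i n) (c n)).starProjection (blk b n x)‖ :=
      (Complex.re_le_norm _).trans (norm_inner_le_norm _ _)
    unfold mass
    nlinarith [sq_nonneg (‖blk b n z‖ - ‖(B.K n (i n) (c n)).starProjection (blk b n x)‖)]
  have h9 := hasSum_le h5 h2 ((h3.add h4).mul_left (1 / 2))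
  linarith

end

end Pool.Agent.Helper20
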