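import Mathlib

namespace Pool.Agent.Helper20

open Set Function TopologicalSpace

section

variable {H : Type*} [NormedAddCommGroup H] [InnerProductSpace ℂ H]

theorem norm_sub_sq_of_orthonormal {ι : Type*} {v : ι → H} (hv : Orthonormal ℂ v) {i j : ι}
    (hij : i ≠ j) : ‖v i - v j‖ ^ 2 = 2 := by
  rw [@norm_sub_sq ℂ, hv.1 i, hv.1 j, hv.2 hij]
  simp
  norm_num

/-- Orthonormal families in a separable space are countable. -/
theorem countable_of_orthonormal [SeparableSpace H] {ι : Type*} {v : ι → H}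
    (hv : Orthonormal ℂ v) : Countable ι := by
  have hdisj : Pairwise (Disjoint on fun i => Metric.ball (v i) (1 / 2)) := by
    intro i j hij
    apply Metric.ball_disjoint_ball
    rw [dist_eq_norm]
    have h := norm_sub_sq_of_orthonormal hv hij
    nlinarith [norm_nonneg (v i - v j)]
  exact hdisj.countable_of_isOpen_disjoint (fun i => Metric.isOpen_ball)
    (fun i => ⟨v i, Metric.mem_ball_self (by norm_num)⟩)

theorem infinite_of_orthonormal_dense {ι : Type*} {v : ι → H} (hfin : ¬ FiniteDimensional ℂ H)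
    (hd : ⊤ ≤ (Submodule.span ℂ (Set.range v)).topologicalClosure) : Infinite ι := by
  by_contra hι
  rw [not_infinite_iff_finite] at hι
  apply hfin
  have h1 : FiniteDimensional ℂ (Submodule.span ℂ (Set.range v)) :=
    FiniteDimensional.span_of_finite ℂ (Set.finite_range v)
  have h2 : IsClosed ((Submodule.span ℂ (Set.range v) : Submodule ℂ H) : Set H) :=
    Submodule.closed_of_finiteDimensional _
  rw [h2.submodule_topologicalClosure_eq] at hd
  have h3 : Submodule.span ℂ (Set.range v) = ⊤ := top_le_iff.mp hd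
  rw [h3] at h1
  exact Module.Finite.equiv (Submodule.topEquiv)

/-- A separable infinite-dimensional Hilbert space has a Hilbert basis indexed by any given
countably infinite type. -/
theorem exists_hilbertBasis_index [CompleteSpace H] [SeparableSpace H]
    (hfin : ¬ FiniteDimensional ℂ H) (ι : Type) [Countable ι] [Infinite ι] :
    Nonempty (HilbertBasis ι ℂ H) := by
  obtain ⟨w, b, hb⟩ := exists_hilbertBasis ℂ H
  have : Countable w := countable_of_orthonormal b.orthonormal
  have : Infinite w := infinite_of_orthonormal_dense hfin b.dense_span.ge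
  obtain ⟨e⟩ : Nonempty (ι ≃ w) := by
    have : Nonempty (Denumerable ι) := nonempty_denumerable ι
    have : Nonempty (Denumerable w) := nonempty_denumerable w
    obtain ⟨d1⟩ := nonempty_denumerable ι
    obtain ⟨d2⟩ := nonempty_denumerable w
    exact ⟨(Denumerable.eqv ι).trans (Denumerable.eqv w).symm⟩
  refine ⟨HilbertBasis.mk (v := b ∘ e) (b.orthonormal.comp e e.injective) ?_⟩
  rw [EquivLike.range_comp]
  exact b.dense_span.ge

/-- Among infinitely many bounded vectors, some pair of distinct ones is nearly identified by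
finitely many given compact operators. -/
theorem exists_ne_compact [CompleteSpace H] {m : ℕ} (T : Fin m → (H →L[ℂ] H))
    (hT : ∀ j, IsCompactOperator (T j)) {x : ℕ → H} (hx : ∀ k, ‖x k‖ ≤ 1) {η : ℝ} (hη : 0 < η) :
    ∃ k l, k ≠ l ∧ ∀ j, ‖T j (x k - x l)‖ < η := by
  have hK : ∀ j, IsCompact (closure ((T j) '' Metric.closedBall 0 1)) := fun j =>
    IsCompactOperator.isCompact_closure_image_closedBall (𝕜₁ := ℂ) (f := (T j : H →ₗ[ℂ] H)) (hT j) 1
  have hcomp : IsCompact (Set.pi Set.univ fun j => closure ((T j) '' Metric.closedBall 0 1)) :=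
    isCompact_univ_pi hK
  let y : ℕ → (Fin m → H) := fun k j => T j (x k)
  have hy : ∀ k, y k ∈ Set.pi Set.univ fun j => closure ((T j) '' Metric.closedBall 0 1) := by
    intro k j _
    exact subset_closure ⟨x k, by simpa using hx k, rfl⟩
  obtain ⟨a, _, φ, hφ, hlim⟩ := hcomp.tendsto_subseq hy
  have hc := hlim.cauchySeq
  rw [Metric.cauchySeq_iff'] at hc
  obtain ⟨N, hN⟩ := hc η hη
  refine ⟨φ (N + 1), φ N, (hφ (Nat.lt_succ_self N)).ne', fun j => ?_⟩
  have h1 := hN (N + 1) (Nat.le_succ N)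
  have h2 := lt_of_le_of_lt (dist_le_pi_dist (y (φ (N + 1))) (y (φ N)) j) h1
  rw [map_sub, ← dist_eq_norm]
  exact h2

theorem exists_orthonormal_seq {K : Submodule ℂ H} (hK : ¬ FiniteDimensional ℂ K) :
    ∃ x : ℕ → H, Orthonormal ℂ x ∧ ∀ k, x k ∈ K := by
  classical
  let B := Module.Basis.ofVectorSpace ℂ K
  have hinf : Infinite (Module.Basis.ofVectorSpaceIndex ℂ K) := by
    by_contra h
    rw [not_infinite_iff_finite] at h
    exact hK (Module.Finite.of_basis B)
  let f : ℕ → K := B ∘ (Infinite.natEmbedding _)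
  have hf : LinearIndependent ℂ f := B.linearIndependent.comp _ (Infinite.natEmbedding _).injective
  let g : ℕ → K := InnerProductSpace.gramSchmidtNormed ℂ f
  have hg : Orthonormal ℂ g := InnerProductSpace.gramSchmidtNormed_orthonormal hf
  refine ⟨fun k => (g k : H), hg.comp_linearIsometry K.subtypeₗᵢ, fun k => (g k).2⟩

/-- An infinite-dimensional subspace contains a unit vector nearly killed by finitely many given
compact operators. -/
theorem exists_unit_compact_small [CompleteSpace H] {K : Submodule ℂ H}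
    (hK : ¬ FiniteDimensional ℂ K) {m : ℕ} (T : Fin m → (H →L[ℂ] H))
    (hT : ∀ j, IsCompactOperator (T j)) {η : ℝ} (hη : 0 < η) :
    ∃ x ∈ K, ‖x‖ = 1 ∧ ∀ j, ‖T j x‖ < η := by
  obtain ⟨x, hx, hxK⟩ := exists_orthonormal_seq hK
  obtain ⟨k, l, hkl, hj⟩ := exists_ne_compact T hT (fun k => (hx.1 k).le) hη
  have hn := norm_sub_sq_of_orthonormal hx hkl
  have hn1 : 1 ≤ ‖x k - x l‖ := by nlinarith [norm_nonneg (x k - x l)]
  have hn0 : 0 < ‖x k - x l‖ := by linarith
  refine ⟨((‖x k - x l‖⁻¹ : ℝ) : ℂ) • (x k - x l), ?_, ?_, ?_⟩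
  · exact K.smul_mem _ (K.sub_mem (hxK k) (hxK l))
  · rw [norm_smul, Complex.norm_real, norm_inv, norm_norm]
    exact inv_mul_cancel₀ hn0.ne'
  · intro j
    rw [map_smul, norm_smul, Complex.norm_real, norm_inv, norm_norm]
    have h1 : ‖x k - x l‖⁻¹ ≤ 1 := inv_le_one_of_one_le₀ hn1
    calc ‖x k - x l‖⁻¹ * ‖T j (x k - x l)‖ ≤ 1 * ‖T j (x k - x l)‖ := by gcongr
      _ < η := by rw [one_mul]; exact hj j

theorem finiteDimensional_range_of_compact [CompleteSpace H] {q : H →L[ℂ] H}
    (hq : IsIdempotentElem q) (hc : IsCompactOperator q) :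
    FiniteDimensional ℂ (LinearMap.range (q : H →ₗ[ℂ] H)) := by
  by_contra hK
  obtain ⟨x, hxK, hx1, hx⟩ := exists_unit_compact_small hK (fun _ : Fin 1 => q) (fun _ => hc)
    (η := 1) one_pos
  obtain ⟨y, hy⟩ := hxK
  have h1 : q x = x := by
    rw [← hy]
    have := congrArg (fun T : H →L[ℂ] H => T y) hq
    simpa using this
  have h2 := hx 0
  simp only [h1, hx1, lt_irrefl] at h2

theorem compact_of_finiteDimensional_range {q : H →L[ℂ] H}
    (hf : FiniteDimensional ℂ (LinearMap.range (q : H →ₗ[ℂ] H))) : IsCompactOperator q := by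
  let K := LinearMap.range (q : H →ₗ[ℂ] H)
  have : FiniteDimensional ℂ K := hf
  have : ProperSpace K := FiniteDimensional.proper ℂ K
  let q' : H →L[ℂ] K := q.codRestrict K (fun x => LinearMap.mem_range_self _ x)
  have h1 : IsCompactOperator q' := isCompactOperator_of_locallyCompactSpace_dom q'
  exact h1.clm_comp K.subtypeL

/-- Schauder's theorem for Hilbert spaces: the adjoint of a compact operator is compact. -/
theorem isCompactOperator_adjoint [CompleteSpace H] {T : H →L[ℂ] H} (hT : IsCompactOperator T) :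
    IsCompactOperator (ContinuousLinearMap.adjoint T) := by
  set A := ContinuousLinearMap.adjoint T with hA
  have h1 : IsCompactOperator (T ∘ A) := hT.comp_clm A
  have h1' : IsCompactOperator ((T ∘L A : H →L[ℂ] H) : H →ₗ[ℂ] H) := h1
  have h2 : IsCompact (closure ((T ∘L A : H →L[ℂ] H) '' Metric.closedBall 0 1)) :=
    IsCompactOperator.isCompact_closure_image_closedBall (𝕜₁ := ℂ)
      (f := ((T ∘L A : H →L[ℂ] H) : H →ₗ[ℂ] H)) h1' 1
  have h3 : TotallyBounded ((T ∘L A : H →L[ℂ] H) '' Metric.closedBall 0 1) :=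
    h2.totallyBounded.subset subset_closure
  change IsCompactOperator (A : H →ₗ[ℂ] H)
  rw [isCompactOperator_iff_isCompact_closure_image_closedBall (A : H →ₗ[ℂ] H) zero_lt_one]
  refine TotallyBounded.isCompact_of_isClosed (TotallyBounded.closure ?_) isClosed_closure
  rw [Metric.totallyBounded_iff]
  intro ε hε
  obtain ⟨t, hts, htf, hcov⟩ := Metric.finite_approx_of_totallyBounded h3 (ε ^ 2 / 4)
    (by positivity)
  have hch : ∀ y ∈ t, ∃ x ∈ Metric.closedBall (0 : H) 1, (T ∘L A) x = y := fun y hy => hts hy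
  choose! f hf1 hf2 using hch
  refine ⟨(fun y => A (f y)) '' t, htf.image _, ?_⟩
  rintro _ ⟨x, hx, rfl⟩
  have hx' : (T ∘L A) x ∈ ⋃ y ∈ t, Metric.ball y (ε ^ 2 / 4) := hcov ⟨x, hx, rfl⟩
  rw [mem_iUnion₂] at hx'
  obtain ⟨y, hy, hxy⟩ := hx'
  rw [mem_iUnion₂]
  refine ⟨A (f y), ⟨y, hy, rfl⟩, ?_⟩
  rw [Metric.mem_ball, dist_eq_norm] at hxy ⊢
  rw [← hf2 y hy, ← map_sub] at hxy
  have e1 : (A : H →ₗ[ℂ] H) x - A (f y) = A (x - f y) := by simp
  rw [e1]
  have h4 : ‖A (x - f y)‖ ^ 2 = RCLike.re (inner ℂ (T (A (x - f y))) (x - f y)) := by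
    rw [← ContinuousLinearMap.adjoint_inner_right, ← hA, inner_self_eq_norm_sq]
  have h5 : ‖x - f y‖ ≤ 2 := by
    have h6 := hf1 y hy
    rw [mem_closedBall_zero_iff] at hx h6
    calc ‖x - f y‖ ≤ ‖x‖ + ‖f y‖ := norm_sub_le _ _
      _ ≤ 1 + 1 := add_le_add hx h6
      _ = 2 := by norm_num
  have h6 : ‖A (x - f y)‖ ^ 2 ≤ ‖T (A (x - f y))‖ * ‖x - f y‖ := by
    rw [h4]
    exact (RCLike.re_le_norm _).trans (norm_inner_le_norm _ _)
  have h7 : ‖T (A (x - f y))‖ < ε ^ 2 / 4 := hxy
  have h8 : ‖A (x - f y)‖ ^ 2 < ε ^ 2 := by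
    have : ‖T (A (x - f y))‖ * ‖x - f y‖ ≤ ε ^ 2 / 4 * 2 := by
      apply mul_le_mul h7.le h5 (norm_nonneg _) (by positivity)
    nlinarith [sq_pos_of_pos hε]
  exact lt_of_pow_lt_pow_left₀ 2 hε.le h8

end

end Pool.Agent.Helper20
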