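import Mathlib

namespace Pool.Agent.Helper20

open Finset Function

section Tensor

variable {I V : Type} [Fintype I] [DecidableEq I] [Fintype V] [DecidableEq V]

theorem sum_sum_update (F : (I → V) → ℂ) (i : I) :
    ∑ y, ∑ w, F (update y i w) = (Fintype.card V : ℂ) * ∑ y, F y := by
  classical
  let e : (I → V) × V ≃ (I → V) × V :=
    { toFun := fun p => (update p.1 i p.2, p.1 i)
      invFun := fun p => (update p.1 i p.2, p.1 i)
      left_inv := fun p => by
        ext <;> simp
      right_inv := fun p => by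
        ext <;> simp }
  have h1 : ∑ y, ∑ w, F (update y i w) = ∑ p : (I → V) × V, F (e p).1 := by
    rw [Fintype.sum_prod_type]
    rfl
  have h2 : ∑ p : (I → V) × V, F (e p).1 = ∑ p : (I → V) × V, F p.1 :=
    Equiv.sum_comp e (fun p => F p.1)
  rw [h1, h2, Fintype.sum_prod_type, Finset.mul_sum]
  apply Finset.sum_congr rfl
  intro y _
  simp [Finset.sum_const, Finset.card_univ]

/-- Functions on `I → V` of the form `1_g(y i) * α(y)` with `α` not depending on the coordinate
`i`: this is the indicator function of `g` in the tensor position `i`, tensored with everything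
in the other positions. -/
def tens (i : I) (g : Finset V) : Submodule ℂ (EuclideanSpace ℂ (I → V)) where
  carrier := {ψ | ∃ α : EuclideanSpace ℂ (I → V), (∀ y w, α (update y i w) = α y) ∧
    ∀ y, ψ y = if y i ∈ g then α y else 0}
  zero_mem' := ⟨0, by simp, by simp⟩
  add_mem' := by
    rintro ψ φ ⟨α, hα, hψ⟩ ⟨β, hβ, hφ⟩
    refine ⟨α + β, ?_, ?_⟩
    · intro y w
      simp [hα, hβ]
    · intro y
      simp only [PiLp.add_apply, hψ, hφ]
      split_ifs <;> simp
  smul_mem' := by
    rintro c ψ ⟨α, hα, hψ⟩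
    refine ⟨c • α, ?_, ?_⟩
    · intro y w
      simp [hα]
    · intro y
      simp only [PiLp.smul_apply, hψ]
      split_ifs <;> simp

theorem inner_tens_aux {i : I} {g g' : Finset V} {u v a b : EuclideanSpace ℂ (I → V)}
    (ha : ∀ y w, a (update y i w) = a y) (hb : ∀ y w, b (update y i w) = b y)
    (hu : ∀ y, u y = if y i ∈ g then a y else 0) (hv : ∀ y, v y = if y i ∈ g' then b y else 0) :
    (Fintype.card V : ℂ) * inner ℂ u v = ((g ∩ g').card : ℂ) * inner ℂ a b := by
  rw [PiLp.inner_apply, PiLp.inner_apply, ← sum_sum_update (fun y => inner ℂ (u y) (v y)) i,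
    Finset.mul_sum]
  apply Finset.sum_congr rfl
  intro y _
  have h : ∀ w, inner ℂ (u (update y i w)) (v (update y i w))
      = if w ∈ g ∩ g' then inner ℂ (a y) (b y) else 0 := by
    intro w
    rw [hu, hv, ha, hb]
    simp only [update_self, Finset.mem_inter]
    by_cases h1 : w ∈ g <;> by_cases h2 : w ∈ g' <;> simp [h1, h2]
  simp only [h]
  rw [Finset.sum_ite_mem, Finset.univ_inter, Finset.sum_const, nsmul_eq_mul]

/-- Almost orthogonality of the subspaces `tens i g` and `tens i g'` when `g ∩ g'` is small. -/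
theorem norm_inner_tens_le {i : I} {g g' : Finset V} {q : ℕ} (hq : 0 < q) (hg : g.card = q)
    (hg' : g'.card = q) (hgg' : 4 * (g ∩ g').card ≤ q) {u v : EuclideanSpace ℂ (I → V)}
    (hu : u ∈ tens i g) (hv : v ∈ tens i g') : ‖inner ℂ u v‖ ≤ 1 / 4 * ‖u‖ * ‖v‖ := by
  obtain ⟨a, ha, hua⟩ := hu
  obtain ⟨b, hb, hvb⟩ := hv
  obtain ⟨w0, hw0⟩ : g.Nonempty := by
    rw [← Finset.card_pos]; omega
  have hV : 0 < Fintype.card V := Fintype.card_pos_iff.mpr ⟨w0⟩
  have huv := inner_tens_aux ha hb hua hvb
  have huu := inner_tens_aux ha ha hua hua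
  have hvv := inner_tens_aux hb hb hvb hvb
  rw [Finset.inter_self, hg, inner_self_eq_norm_sq_to_K, inner_self_eq_norm_sq_to_K] at huu
  rw [Finset.inter_self, hg', inner_self_eq_norm_sq_to_K, inner_self_eq_norm_sq_to_K] at hvv
  have huu' : (Fintype.card V : ℝ) * ‖u‖ ^ 2 = q * ‖a‖ ^ 2 := by
    apply Complex.ofReal_injective
    push_cast
    simpa using huu
  have hvv' : (Fintype.card V : ℝ) * ‖v‖ ^ 2 = q * ‖b‖ ^ 2 := by
    apply Complex.ofReal_injective
    push_cast
    simpa using hvv
  have huv' : (Fintype.card V : ℝ) * ‖inner ℂ u v‖ = ((g ∩ g').card : ℝ) * ‖inner ℂ a b‖ := by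
    have := congrArg norm huv
    rw [norm_mul, norm_mul] at this
    simpa using this
  have hab := norm_inner_le_norm (𝕜 := ℂ) a b
  have hVr : (0 : ℝ) < Fintype.card V := by exact_mod_cast hV
  have hqr : (0 : ℝ) < q := by exact_mod_cast hq
  have hgr : 4 * ((g ∩ g').card : ℝ) ≤ q := by exact_mod_cast hgg'
  have hprod : (Fintype.card V : ℝ) * (‖u‖ * ‖v‖) = q * (‖a‖ * ‖b‖) := by
    have h1 : ((Fintype.card V : ℝ) * (‖u‖ * ‖v‖)) ^ 2 = (q * (‖a‖ * ‖b‖)) ^ 2 := by
      calc ((Fintype.card V : ℝ) * (‖u‖ * ‖v‖)) ^ 2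
          = ((Fintype.card V : ℝ) * ‖u‖ ^ 2) * ((Fintype.card V : ℝ) * ‖v‖ ^ 2) := by ring
        _ = (q * ‖a‖ ^ 2) * (q * ‖b‖ ^ 2) := by rw [huu', hvv']
        _ = _ := by ring
    exact (pow_left_inj₀ (by positivity) (by positivity) (by norm_num)).mp h1
  have h2 : 4 * ((Fintype.card V : ℝ) * ‖inner ℂ u v‖) ≤ (Fintype.card V : ℝ) * (‖u‖ * ‖v‖) := by
    rw [huv', hprod]
    calc 4 * (((g ∩ g').card : ℝ) * ‖inner ℂ a b‖)
        = (4 * ((g ∩ g').card : ℝ)) * ‖inner ℂ a b‖ := by ring
      _ ≤ q * (‖a‖ * ‖b‖) := by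
          apply mul_le_mul hgr hab (norm_nonneg _) hqr.le
  have h3 : (Fintype.card V : ℝ) * (4 * ‖inner ℂ u v‖) ≤ (Fintype.card V : ℝ) * (‖u‖ * ‖v‖) := by
    linarith
  have h4 := le_of_mul_le_mul_left h3 hVr
  linarith

/-- The intersection of the subspaces `tens i (θ i)` over all tensor positions is nonzero. -/
theorem exists_mem_tens (θ : I → Finset V) (hθ : ∀ i, (θ i).Nonempty) :
    ∃ ψ : EuclideanSpace ℂ (I → V), ψ ≠ 0 ∧ ∀ i, ψ ∈ tens i (θ i) := by
  classical
  refine ⟨WithLp.toLp 2 (fun y => if ∀ i, y i ∈ θ i then (1 : ℂ) else 0), ?_, ?_⟩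
  · intro h
    choose y hy using hθ
    have h1 := congrArg (fun ψ : EuclideanSpace ℂ (I → V) => ψ y) h
    simp [hy] at h1
  · intro i
    refine ⟨WithLp.toLp 2 (fun y => if ∀ j, j ≠ i → y j ∈ θ j then (1 : ℂ) else 0), ?_, ?_⟩
    · intro y w
      simp only [PiLp.toLp_apply]
      have : (∀ j, j ≠ i → update y i w j ∈ θ j) ↔ (∀ j, j ≠ i → y j ∈ θ j) := by
        constructor
        · intro h j hj
          have := h j hj
          rwa [update_of_ne hj] at this
        · intro h j hj
          rw [update_of_ne hj]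
          exact h j hj
      simp only [this]
    · intro y
      simp only [PiLp.toLp_apply]
      by_cases h1 : y i ∈ θ i
      · have : (∀ j, y j ∈ θ j) ↔ (∀ j, j ≠ i → y j ∈ θ j) := by
          constructor
          · intro h j _
            exact h j
          · intro h j
            by_cases hj : j = i
            · subst hj; exact h1
            · exact h j hj
        simp only [h1, if_true, this]
      · have : ¬ (∀ j, y j ∈ θ j) := fun h => h1 (h i)
        simp [h1, this]

end Tensor

/-- A Bombieri-type inequality for almost orthogonal subspaces. -/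
theorem sum_norm_sq_starProjection_le {E ι : Type*} [NormedAddCommGroup E] [InnerProductSpace ℂ E]
    (K : ι → Submodule ℂ E) [∀ c, (K c).HasOrthogonalProjection] {η : ℝ} (hη : 0 ≤ η)
    (hK : ∀ c c', c ≠ c' → ∀ u ∈ K c, ∀ v ∈ K c', ‖inner ℂ u v‖ ≤ η * ‖u‖ * ‖v‖)
    (S : Finset ι) (x : E) :
    ∑ c ∈ S, ‖(K c).starProjection x‖ ^ 2 ≤ (1 + η * S.card) * ‖x‖ ^ 2 := by
  classical
  set A : ℝ := ∑ c ∈ S, ‖(K c).starProjection x‖ ^ 2 with hA
  have hA0 : 0 ≤ A := Finset.sum_nonneg fun _ _ => by positivity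
  set w : E := ∑ c ∈ S, (K c).starProjection x with hw
  have hin : ∀ c, RCLike.re (inner ℂ ((K c).starProjection x) x) = ‖(K c).starProjection x‖ ^ 2 := by
    intro c
    rw [Submodule.re_inner_starProjection_eq_normSq, Submodule.starProjection_apply,
      Submodule.coe_norm]
  have h1 : A = RCLike.re (inner ℂ w x) := by
    rw [hw, sum_inner, map_sum, hA]
    exact Finset.sum_congr rfl fun c _ => (hin c).symm
  have h2 : A ≤ ‖w‖ * ‖x‖ := by
    rw [h1]
    exact (RCLike.re_le_norm _).trans (norm_inner_le_norm _ _)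
  have h3 : ‖w‖ ^ 2 ≤ (1 + η * S.card) * A := by
    have h4 : ‖w‖ ^ 2 = ∑ c ∈ S, ∑ c' ∈ S,
        RCLike.re (inner ℂ ((K c).starProjection x) ((K c').starProjection x)) := by
      rw [← @inner_self_eq_norm_sq ℂ, hw, sum_inner, map_sum]
      apply Finset.sum_congr rfl
      intro c _
      rw [inner_sum, map_sum]
    have h5 : ∀ c ∈ S, ∀ c' ∈ S,
        RCLike.re (inner ℂ ((K c).starProjection x) ((K c').starProjection x))
        ≤ (if c = c' then ‖(K c).starProjection x‖ ^ 2 else 0) +
          η * (‖(K c).starProjection x‖ * ‖(K c').starProjection x‖) := by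
      intro c _ c' _
      by_cases hcc : c = c'
      · subst hcc
        simp only [if_true]
        rw [inner_self_eq_norm_sq]
        have : 0 ≤ η * (‖(K c).starProjection x‖ * ‖(K c).starProjection x‖) := by positivity
        linarith
      · simp only [hcc, if_false, zero_add]
        have := hK c c' hcc _ (Submodule.starProjection_apply_mem _ x) _
          (Submodule.starProjection_apply_mem (K c') x)
        calc _ ≤ ‖inner ℂ ((K c).starProjection x) ((K c').starProjection x)‖ :=
              RCLike.re_le_norm _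
          _ ≤ _ := this
          _ = _ := by ring
    rw [h4]
    calc _ ≤ ∑ c ∈ S, ∑ c' ∈ S, ((if c = c' then ‖(K c).starProjection x‖ ^ 2 else 0) +
          η * (‖(K c).starProjection x‖ * ‖(K c').starProjection x‖)) :=
            Finset.sum_le_sum fun c hc => Finset.sum_le_sum fun c' hc' => h5 c hc c' hc'
      _ = A + η * (∑ c ∈ S, ‖(K c).starProjection x‖) ^ 2 := by
          simp only [Finset.sum_add_distrib]
          congr 1
          · rw [hA]
            apply Finset.sum_congr rfl
            intro c hc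
            rw [Finset.sum_ite_eq]
            simp [hc]
          · rw [sq, Finset.sum_mul_sum, Finset.mul_sum]
            apply Finset.sum_congr rfl
            intro c _
            rw [Finset.mul_sum]
      _ ≤ A + η * (S.card * A) := by
          have : (∑ c ∈ S, ‖(K c).starProjection x‖) ^ 2 ≤ S.card * A :=
            sq_sum_le_card_mul_sum_sq
          nlinarith [mul_le_mul_of_nonneg_left this hη]
      _ = _ := by ring
  have hx0 := norm_nonneg x
  have hw0 := norm_nonneg w
  by_cases hAz : A = 0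
  · rw [hAz]; positivity
  · have hApos : 0 < A := lt_of_le_of_ne hA0 (Ne.symm hAz)
    have h6 : A ^ 2 ≤ (1 + η * S.card) * ‖x‖ ^ 2 * A := by
      calc A ^ 2 ≤ (‖w‖ * ‖x‖) ^ 2 := by gcongr
        _ = ‖w‖ ^ 2 * ‖x‖ ^ 2 := by ring
        _ ≤ ((1 + η * S.card) * A) * ‖x‖ ^ 2 := by gcongr
        _ = _ := by ring
    have h7 : A * A ≤ ((1 + η * S.card) * ‖x‖ ^ 2) * A := by nlinarith
    exact le_of_mul_le_mul_right h7 hApos

end Pool.Agent.Helper20
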