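import Pool.Agent.helper20.Design
import Pool.Agent.helper20.TensorSub
import Pool.Agent.helper20.HilbertPrelim

namespace Pool.Agent.Helper20

open Finset Function

/-- Combinatorial block data: finite-dimensional spaces with many families of subspaces. -/
structure BlockData where
  Y : ℕ → Type
  fY : ∀ n, Fintype (Y n)
  Θ : ℕ → Type
  fΘ : ∀ n, Fintype (Θ n)
  K : ∀ n, (Fin n → Bool) → Θ n → Submodule ℂ (EuclideanSpace ℂ (Y n))
  neY : ∀ n, Nonempty (Y n)
  card_le : ∀ n, 2 ^ (n + 5) * Fintype.card (Y n) ≤ Fintype.card (Θ n)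
  almost : ∀ n i c c', c ≠ c' → ∀ u ∈ K n i c, ∀ v ∈ K n i c',
    ‖inner ℂ u v‖ ≤ 1 / 4 * ‖u‖ * ‖v‖
  inter : ∀ n (θ : (Fin n → Bool) → Θ n), ∃ ψ : EuclideanSpace ℂ (Y n), ψ ≠ 0 ∧
    ∀ i, ψ ∈ K n i (θ i)

theorem nonempty_blockData : Nonempty BlockData := by
  classical
  choose q V Θ fV dV fΘ G hV hq hG hGG hL using (fun n => exists_design (2 ^ n) (2 ^ (n + 5)))
  have hGne : ∀ n c, (G n c).Nonempty := by
    intro n c
    rw [← Finset.card_pos, hG]
    exact hq n
  refine ⟨{ Y := fun n => (Fin n → Bool) → V n, fY := fun n => inferInstance, Θ := Θ, fΘ := fΘ,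
            K := fun n i c => tens i (G n c), neY := ?_, card_le := ?_, almost := ?_,
            inter := ?_ }⟩
  · intro n
    exact ⟨fun _ => (hV n).some⟩
  · intro n
    have h1 : Fintype.card ((Fin n → Bool) → V n) = Fintype.card (V n) ^ (2 ^ n) := by
      rw [Fintype.card_fun]
      simp
    rw [h1]
    exact hL n
  · intro n i c c' hcc' u hu v hv
    exact norm_inner_tens_le (hq n) (hG n c) (hG n c') (hGG n c c' hcc') hu hv
  · intro n θ
    exact exists_mem_tens (fun i => G n (θ i)) (fun i => hGne n _)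

end Pool.Agent.Helper20
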