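import Mathlib

namespace Pool.Agent.Helper20

open Finset Polynomial

/-- A Reed-Solomon type design: many `q`-element subsets of a small set `V`, with pairwise
intersections of size at most `q / 4`. -/
theorem exists_design (k L : ℕ) : ∃ (q : ℕ) (V Θ : Type) (_ : Fintype V) (_ : DecidableEq V)
    (_ : Fintype Θ) (G : Θ → Finset V),
    Nonempty V ∧ 0 < q ∧ (∀ c, (G c).card = q) ∧ (∀ c c', c ≠ c' → 4 * (G c ∩ G c').card ≤ q) ∧
    L * (Fintype.card V) ^ k ≤ Fintype.card Θ := by
  classical
  set d : ℕ := 2 * k + L with hd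
  obtain ⟨q, hq4, hq⟩ := Nat.exists_infinite_primes (4 * d + 2)
  have : Fact q.Prime := ⟨hq⟩
  have hq0 : 0 < q := hq.pos
  have hq2 : 2 ≤ q := hq.two_le
  let f : (Fin d → ZMod q) → ZMod q → ZMod q := fun c a => ∑ i, c i * a ^ (i : ℕ)
  let G : (Fin d → ZMod q) → Finset (ZMod q × ZMod q) :=
    fun c => Finset.univ.image (fun a => (a, f c a))
  refine ⟨q, ZMod q × ZMod q, Fin d → ZMod q, inferInstance, inferInstance, inferInstance, G,
    ⟨(0, 0)⟩, hq0, ?_, ?_, ?_⟩
  · intro c
    rw [Finset.card_image_of_injective, Finset.card_univ, ZMod.card]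
    intro a b hab
    simpa using congrArg Prod.fst hab
  · intro c c' hcc'
    let p : (ZMod q)[X] := ∑ i : Fin d, C (c i - c' i) * X ^ (i : ℕ)
    have hcoeff : ∀ j : Fin d, p.coeff j = c j - c' j := by
      intro j
      simp only [p, Polynomial.finsetSum_coeff, Polynomial.coeff_C_mul, Polynomial.coeff_X_pow]
      rw [Finset.sum_eq_single j]
      · simp
      · intro b _ hb
        have : (j : ℕ) ≠ (b : ℕ) := fun h => hb (Fin.ext h.symm)
        simp [this]
      · simp
    have hp0 : p ≠ 0 := by
      intro h0
      apply hcc'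
      funext j
      have := hcoeff j
      rw [h0] at this
      simp at this
      exact (sub_eq_zero.mp this.symm)
    have hdeg : p.degree < d := Polynomial.degree_sum_fin_lt (fun i => c i - c' i)
    have hroots : p.roots.card ≤ d := by
      have h1 := Polynomial.card_roots hp0
      have h2 : ((Multiset.card p.roots : ℕ) : WithBot ℕ) < d := lt_of_le_of_lt h1 hdeg
      exact_mod_cast h2.le
    have hsub : G c ∩ G c' ⊆ p.roots.toFinset.image (fun a => (a, f c a)) := by
      rintro ⟨a, b⟩ hab
      rw [Finset.mem_inter] at hab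
      simp only [G, Finset.mem_image, Finset.mem_univ, true_and, Prod.mk.injEq] at hab
      obtain ⟨⟨a1, h1, h2⟩, ⟨a2, h3, h4⟩⟩ := hab
      subst h1
      subst h3
      rw [Finset.mem_image]
      refine ⟨a2, ?_, ?_⟩
      · rw [Multiset.mem_toFinset, Polynomial.mem_roots hp0, Polynomial.IsRoot.def]
        simp only [p, Polynomial.eval_finsetSum, Polynomial.eval_mul, Polynomial.eval_C,
          Polynomial.eval_pow, Polynomial.eval_X]
        have : f c a2 - f c' a2 = 0 := by rw [h2, h4, sub_self]
        simp only [f] at this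
        rw [← Finset.sum_sub_distrib] at this
        rw [← this]
        apply Finset.sum_congr rfl
        intro i _
        ring
      · simp [h2]
    have hcard : (G c ∩ G c').card ≤ d := by
      calc (G c ∩ G c').card ≤ _ := Finset.card_le_card hsub
        _ ≤ p.roots.toFinset.card := Finset.card_image_le
        _ ≤ Multiset.card p.roots := Multiset.toFinset_card_le _
        _ ≤ d := hroots
    omega
  · have h1 : Fintype.card (ZMod q × ZMod q) = q ^ 2 := by
      rw [Fintype.card_prod, ZMod.card]; ring
    have h2 : Fintype.card (Fin d → ZMod q) = q ^ d := by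
      rw [Fintype.card_fun, ZMod.card, Fintype.card_fin]
    rw [h1, h2, hd, pow_add, ← pow_mul]
    have h3 : L ≤ q ^ L := (Nat.lt_pow_self (by omega)).le
    calc L * q ^ (2 * k) ≤ q ^ L * q ^ (2 * k) := Nat.mul_le_mul_right _ h3
      _ = q ^ (2 * k) * q ^ L := Nat.mul_comm _ _

end Pool.Agent.Helper20
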