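import Pool.Agent.helper20.HilbertPrelim

namespace Pool.Agent.Helper20

open Set Function TopologicalSpace InnerProductSpace

variable {H : Type*} [NormedAddCommGroup H] [InnerProductSpace ℂ H] [CompleteSpace H]

/-- A maximal family of pairwise commuting projections. -/
structure MaxComm (D : Set (H →L[ℂ] H)) : Prop where
  proj : ∀ p ∈ D, IsStarProjection p
  comm : ∀ p ∈ D, ∀ q ∈ D, Commute p q
  max : ∀ p, IsStarProjection p → (∀ q ∈ D, Commute p q) → p ∈ D

namespace MaxComm

variable {D : Set (H →L[ℂ] H)} (hD : MaxComm D)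

include hD

theorem mul_mem {p q : H →L[ℂ] H} (hp : p ∈ D) (hq : q ∈ D) : p * q ∈ D :=
  hD.max _ ((hD.proj p hp).mul (hD.proj q hq) (hD.comm p hp q hq))
    (fun r hr => (hD.comm p hp r hr).mul_left (hD.comm q hq r hr))

theorem one_sub_mem {p : H →L[ℂ] H} (hp : p ∈ D) : 1 - p ∈ D :=
  hD.max _ (hD.proj p hp).one_sub
    (fun r hr => (Commute.one_left r).sub_left (hD.comm p hp r hr))

theorem zero_mem : (0 : H →L[ℂ] H) ∈ D :=
  hD.max _ (IsStarProjection.zero _) (fun r _ => Commute.zero_left r)

end MaxComm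

theorem exists_maxComm_superset (X : Set (H →L[ℂ] H)) (hX : ∀ p ∈ X, IsStarProjection p)
    (hXc : ∀ p ∈ X, ∀ q ∈ X, Commute p q) : ∃ D, X ⊆ D ∧ MaxComm D := by
  let S : Set (Set (H →L[ℂ] H)) :=
    {D | (∀ p ∈ D, IsStarProjection p) ∧ ∀ p ∈ D, ∀ q ∈ D, Commute p q}
  obtain ⟨D, hXD, hD⟩ := zorn_subset_nonempty S (fun c hc hchain hne => by
    refine ⟨⋃₀ c, ⟨?_, ?_⟩, fun s hs => subset_sUnion_of_mem hs⟩
    · rintro p ⟨s, hs, hp⟩
      exact (hc hs).1 p hp
    · rintro p ⟨s, hs, hp⟩ q ⟨t, ht, hq⟩
      rcases hchain.total hs ht with h | h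
      · exact (hc ht).2 p (h hp) q hq
      · exact (hc hs).2 p hp q (h hq)) X ⟨hX, hXc⟩
  refine ⟨D, hXD, hD.prop.1, hD.prop.2, fun p hp hpc => ?_⟩
  have hins : insert p D ∈ S := by
    refine ⟨?_, ?_⟩
    · rintro q (rfl | hq)
      · exact hp
      · exact hD.prop.1 q hq
    · rintro q (rfl | hq) r (rfl | hr)
      · exact Commute.refl _
      · exact hpc r hr
      · exact (hpc q hq).symm
      · exact hD.prop.2 q hq r hr
  exact hD.le_of_ge hins (subset_insert p D) (mem_insert p D)

/-- The rank one projections in `D`. -/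
def atoms (D : Set (H →L[ℂ] H)) : Set (H →L[ℂ] H) :=
  {p | p ∈ D ∧ ∃ e : H, ‖e‖ = 1 ∧ p = rankOne ℂ e e}

theorem apply_atom_eq {D : Set (H →L[ℂ] H)} (hD : MaxComm D) {s : H →L[ℂ] H} (hs : s ∈ D)
    {e : H} (he : ‖e‖ = 1) (hp : rankOne ℂ e e ∈ D) : s e = 0 ∨ s e = e := by
  have h1 : rankOne ℂ e e e = e := by
    rw [rankOne_apply, inner_self_eq_norm_sq_to_K, he]; simp
  have h2 : s e = (inner ℂ e (s e)) • e := by
    have h3 := congrArg (fun T : H →L[ℂ] H => T e) (hD.comm s hs _ hp)
    simp only [mul_apply_eq_comp, h1] at h3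
    exact h3.trans (rankOne_apply _ _ _)
  set l := inner ℂ e (s e) with hl
  have h4 : s (s e) = s e := by
    have := congrArg (fun T : H →L[ℂ] H => T e) (hD.proj s hs).isIdempotentElem
    simpa using this
  rw [h2, map_smul, h2, smul_smul] at h4
  have he0 : e ≠ 0 := by
    intro h; rw [h] at he; simp at he
  have h5 : l * l = l := by
    have := sub_eq_zero.mpr h4
    rw [← sub_smul, smul_eq_zero] at this
    rcases this with h | h
    · exact sub_eq_zero.mp h
    · exact absurd h he0
  have h6 : l = 0 ∨ l = 1 := by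
    have : l * (l - 1) = 0 := by rw [mul_sub, h5, mul_one, sub_self]
    rcases mul_eq_zero.mp this with h | h
    · exact Or.inl h
    · exact Or.inr (sub_eq_zero.mp h)
  rcases h6 with h | h
  · left; rw [h2, h, zero_smul]
  · right; rw [h2, h, one_smul]

/-- A chosen unit vector of an atom. -/
noncomputable def atomVec {D : Set (H →L[ℂ] H)} (p : atoms D) : H := p.2.2.choose

theorem norm_atomVec {D : Set (H →L[ℂ] H)} (p : atoms D) : ‖atomVec p‖ = 1 :=
  p.2.2.choose_spec.1

theorem rankOne_atomVec {D : Set (H →L[ℂ] H)} (p : atoms D) :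
    rankOne ℂ (atomVec p) (atomVec p) = p.1 := p.2.2.choose_spec.2.symm

theorem orthonormal_atomVec {D : Set (H →L[ℂ] H)} (hD : MaxComm D) :
    Orthonormal ℂ (fun p : atoms D => atomVec p) := by
  refine ⟨norm_atomVec, ?_⟩
  intro p p' hpp'
  have h1 := apply_atom_eq hD (s := p.1) p.2.1 (norm_atomVec p')
    (by rw [rankOne_atomVec]; exact p'.2.1)
  rw [← rankOne_atomVec p, rankOne_apply] at h1
  rcases h1 with h | h
  · rcases smul_eq_zero.mp h with h | h
    · exact h
    · exfalso
      have := norm_atomVec p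
      rw [h] at this; simp at this
  · exfalso
    apply hpp'
    apply Subtype.ext
    rw [← rankOne_atomVec p, ← rankOne_atomVec p']
    set a := inner ℂ (atomVec p) (atomVec p') with ha
    have hn : ‖a‖ = 1 := by
      have h2 := congrArg norm h
      rw [norm_smul, norm_atomVec, norm_atomVec, mul_one] at h2
      exact h2
    ext z
    rw [rankOne_apply, rankOne_apply, ← h, inner_smul_left, smul_smul]
    congr 1
    have : (starRingEnd ℂ) a * a = 1 := by
      rw [Complex.conj_mul', hn]; simp
    calc inner ℂ (atomVec p) z = ((starRingEnd ℂ) a * a) * inner ℂ (atomVec p) z := by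
          rw [this, one_mul]
      _ = _ := by ring

/-- Every nonzero finite rank projection in a maximal commuting family dominates an atom. -/
theorem exists_atom_le {D : Set (H →L[ℂ] H)} (hD : MaxComm D) {q : H →L[ℂ] H} (hq : q ∈ D)
    (hq0 : q ≠ 0) (hfin : FiniteDimensional ℂ (LinearMap.range (q : H →ₗ[ℂ] H))) :
    ∃ p : atoms D, q (atomVec p) = atomVec p := by
  classical
  let P : ℕ → Prop := fun m => ∃ r ∈ D, r ≠ 0 ∧ q * r = r ∧
    FiniteDimensional ℂ (LinearMap.range (r : H →ₗ[ℂ] H)) ∧
    Module.finrank ℂ (LinearMap.range (r : H →ₗ[ℂ] H)) = m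
  have hP : ∃ m, P m := ⟨_, q, hq, hq0, (hD.proj q hq).isIdempotentElem, hfin, rfl⟩
  obtain ⟨r, hr, hr0, hqr, hrfin, hrm⟩ := Nat.find_spec hP
  have hmin : ∀ m, P m → Nat.find hP ≤ m := fun m hm => Nat.find_min' hP hm
  -- a unit vector in the range of `r`
  obtain ⟨x, hx⟩ : ∃ x, r x ≠ 0 := by
    by_contra h
    push Not at h
    exact hr0 (ContinuousLinearMap.ext h)
  have hn : ‖r x‖ ≠ 0 := norm_ne_zero_iff.mpr hx
  set e : H := ((‖r x‖⁻¹ : ℝ) : ℂ) • r x with he_def
  have he1 : ‖e‖ = 1 := by
    rw [he_def, norm_smul, Complex.norm_real, norm_inv, norm_norm, inv_mul_cancel₀ hn]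
  have hrr : ∀ z, r (r z) = r z := fun z => by
    have := congrArg (fun T : H →L[ℂ] H => T z) (hD.proj r hr).isIdempotentElem
    simpa using this
  have hre : r e = e := by
    rw [he_def, map_smul, hrr]
  have hse : ∀ s ∈ D, s e = 0 ∨ s e = e := by
    intro s hs
    have hsr : s * r ∈ D := hD.mul_mem hs hr
    by_cases h0 : s * r = 0
    · left
      have := congrArg (fun T : H →L[ℂ] H => T e) h0
      simpa [hre] using this
    · right
      have hsub : LinearMap.range ((s * r : H →L[ℂ] H) : H →ₗ[ℂ] H) ≤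
          LinearMap.range (r : H →ₗ[ℂ] H) := by
        rintro _ ⟨z, rfl⟩
        refine ⟨s z, ?_⟩
        have := congrArg (fun T : H →L[ℂ] H => T z) (hD.comm s hs r hr)
        simpa using this.symm
      have hfin' : FiniteDimensional ℂ (LinearMap.range ((s * r : H →L[ℂ] H) : H →ₗ[ℂ] H)) :=
        Submodule.finiteDimensional_of_le hsub
      have hqsr : q * (s * r) = s * r := by
        rw [← mul_assoc, (hD.comm q hq s hs).eq, mul_assoc, hqr]
      have h1 := hmin _ ⟨s * r, hsr, h0, hqsr, hfin', rfl⟩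
      rw [← hrm] at h1
      have heq := Submodule.eq_of_le_of_finrank_le hsub h1
      have h2 : e ∈ LinearMap.range ((s * r : H →L[ℂ] H) : H →ₗ[ℂ] H) := by
        rw [heq]
        exact ⟨e, hre⟩
      obtain ⟨z, hz⟩ := h2
      have h3 : (s * r) ((s * r) z) = (s * r) z := by
        have := congrArg (fun T : H →L[ℂ] H => T z) (hD.proj _ hsr).isIdempotentElem
        simpa using this
      have hz' : (s * r) z = e := hz
      rw [hz'] at h3
      simpa [hre] using h3
  have hcomm : ∀ s ∈ D, Commute (rankOne ℂ e e) s := by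
    intro s hs
    have hsa : ∀ z, inner ℂ e (s z) = inner ℂ (s e) z := by
      intro z
      have h1 : ContinuousLinearMap.adjoint s = s := (hD.proj s hs).isSelfAdjoint
      rw [← ContinuousLinearMap.adjoint_inner_left, h1]
    ext z
    simp only [mul_apply_eq_comp, rankOne_apply, map_smul]
    rw [hsa z]
    rcases hse s hs with h | h
    · rw [h]; simp
    · rw [h]
  have hmem : rankOne ℂ e e ∈ D :=
    hD.max _ (InnerProductSpace.isStarProjection_rankOne_self he1) hcomm
  let p : atoms D := ⟨rankOne ℂ e e, hmem, e, he1, rfl⟩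
  refine ⟨p, ?_⟩
  -- the chosen vector of `p` is a multiple of `e`
  have h1 : rankOne ℂ e e (atomVec p) = atomVec p := by
    have h2 := rankOne_atomVec p
    have h3 : rankOne ℂ (atomVec p) (atomVec p) (atomVec p) = atomVec p := by
      rw [rankOne_apply, inner_self_eq_norm_sq_to_K, norm_atomVec]; simp
    rw [h2] at h3
    exact h3
  rw [rankOne_apply] at h1
  have hqe : q e = e := by
    have := congrArg (fun T : H →L[ℂ] H => T e) hqr
    simpa [hre] using this
  rw [← h1, map_smul, hqe]

/-- Removing finitely many atoms from an infinite rank projection. -/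
theorem exists_remove_atoms {D : Set (H →L[ℂ] H)} (hD : MaxComm D) {q : H →L[ℂ] H} (hq : q ∈ D)
    (hinf : ¬ FiniteDimensional ℂ (LinearMap.range (q : H →ₗ[ℂ] H)))
    (hfin : {p : atoms D | q (atomVec p) = atomVec p}.Finite) :
    ∃ r ∈ D, r ≠ 0 ∧ q * r = r ∧ ∀ p : atoms D, r (atomVec p) ≠ atomVec p := by
  classical
  have key : ∀ F : Finset (atoms D), ∃ r ∈ D,
      ¬ FiniteDimensional ℂ (LinearMap.range (r : H →ₗ[ℂ] H)) ∧ q * r = r ∧
      ∀ p ∈ F, r (atomVec p) = 0 := by
    intro F
    induction F using Finset.induction_on with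
    | empty => exact ⟨q, hq, hinf, (hD.proj q hq).isIdempotentElem, by simp⟩
    | insert p F hpF ih =>
      obtain ⟨r, hr, hrinf, hqr, hrF⟩ := ih
      refine ⟨r * (1 - p.1), hD.mul_mem hr (hD.one_sub_mem p.2.1), ?_, ?_, ?_⟩
      · intro hf
        apply hrinf
        have h1 : LinearMap.range (r : H →ₗ[ℂ] H) ≤
            LinearMap.range ((r * (1 - p.1) : H →L[ℂ] H) : H →ₗ[ℂ] H) ⊔
              Submodule.span ℂ {r (atomVec p)} := by
          rintro _ ⟨z, rfl⟩
          have h2 : (r : H →ₗ[ℂ] H) z = (r * (1 - p.1)) z + r (p.1 z) := by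
            simp
          rw [h2]
          refine Submodule.add_mem_sup ⟨z, rfl⟩ ?_
          rw [← rankOne_atomVec p, rankOne_apply, map_smul]
          exact Submodule.smul_mem _ _ (Submodule.mem_span_singleton_self _)
        have h3 : FiniteDimensional ℂ
            (LinearMap.range ((r * (1 - p.1) : H →L[ℂ] H) : H →ₗ[ℂ] H) ⊔
              Submodule.span ℂ {r (atomVec p)} : Submodule ℂ H) := by
          infer_instance
        exact Submodule.finiteDimensional_of_le h1
      · rw [← mul_assoc, hqr]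
      · intro p' hp'
        rw [Finset.mem_insert] at hp'
        rcases hp' with h | h
        · subst h
          have h4 : p'.1 (atomVec p') = atomVec p' := by
            conv_lhs => rw [← rankOne_atomVec p']
            rw [rankOne_apply, inner_self_eq_norm_sq_to_K, norm_atomVec]; simp
          simp [h4]
        · have h5 := congrArg (fun T : H →L[ℂ] H => T (atomVec p'))
            (hD.comm r hr _ (hD.one_sub_mem p.2.1))
          simp only [mul_apply_eq_comp] at h5
          rw [mul_apply_eq_comp, h5, hrF p' h, map_zero]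
  obtain ⟨r, hr, hrinf, hqr, hrF⟩ := key hfin.toFinset
  refine ⟨r, hr, ?_, hqr, ?_⟩
  · rintro rfl
    apply hrinf
    have : LinearMap.range ((0 : H →L[ℂ] H) : H →ₗ[ℂ] H) = ⊥ := by
      simp
    rw [this]
    infer_instance
  · intro p hp
    have h1 : q (atomVec p) = atomVec p := by
      rw [← hp]
      have := congrArg (fun T : H →L[ℂ] H => T (atomVec p)) hqr
      simpa [hp] using this
    have h2 := hrF p (hfin.mem_toFinset.mpr h1)
    rw [hp] at h2
    have h3 := norm_atomVec p
    rw [h2] at h3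
    simp at h3

/-- Compact operators are small on orthonormal sequences. -/
theorem exists_small_of_orthonormal {T : H →L[ℂ] H} (hT : IsCompactOperator T) {x : ℕ → H}
    (hx : Orthonormal ℂ x) {η : ℝ} (hη : 0 < η) : ∃ k, ‖T (x k)‖ < η := by
  by_contra hcon
  push Not at hcon
  have hK : IsCompact (closure (T '' Metric.closedBall 0 1)) :=
    IsCompactOperator.isCompact_closure_image_closedBall (𝕜₁ := ℂ) (f := (T : H →ₗ[ℂ] H)) hT 1
  have hy : ∀ k, T (x k) ∈ closure (T '' Metric.closedBall 0 1) := fun k =>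
    subset_closure ⟨x k, by simp [hx.1 k], rfl⟩
  obtain ⟨a, _, φ, hφ, hlim⟩ := hK.tendsto_subseq hy
  have h1 : Filter.Tendsto (fun k => inner ℂ a (T (x (φ k)))) Filter.atTop (nhds (inner ℂ a a)) :=
    Filter.Tendsto.inner tendsto_const_nhds hlim
  have h2 : Filter.Tendsto (fun k => inner ℂ a (T (x (φ k)))) Filter.atTop (nhds 0) := by
    have h3 : ∀ k, inner ℂ a (T (x (φ k))) =
        (starRingEnd ℂ) (inner ℂ (x (φ k)) (ContinuousLinearMap.adjoint T a)) := by
      intro k
      rw [inner_conj_symm, ContinuousLinearMap.adjoint_inner_left]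
    simp only [h3]
    have h4 : Filter.Tendsto (fun k => inner ℂ (x k) (ContinuousLinearMap.adjoint T a))
        Filter.atTop (nhds 0) := by
      have h5 : Summable fun k => ‖inner ℂ (x k) (ContinuousLinearMap.adjoint T a)‖ ^ 2 :=
        hx.inner_products_summable _
      have h6 := h5.tendsto_atTop_zero
      rw [tendsto_zero_iff_norm_tendsto_zero]
      have h7 := h6.sqrt
      simpa [Real.sqrt_sq (norm_nonneg _)] using h7
    have h8 := (h4.comp hφ.tendsto_atTop)
    have h9 := (Complex.continuous_conj.tendsto 0).comp h8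
    rw [map_zero] at h9
    exact h9
  have h3 : (inner ℂ a a : ℂ) = 0 := tendsto_nhds_unique h1 h2
  have ha : a = 0 := inner_self_eq_zero.mp h3
  rw [ha] at hlim
  have h4 := (tendsto_zero_iff_norm_tendsto_zero.mp hlim)
  have h5 := h4.eventually (gt_mem_nhds hη)
  obtain ⟨k, hk⟩ := h5.exists
  exact absurd hk (not_lt.mpr (hcon (φ k)))

end Pool.Agent.Helper20
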