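import Pool.Agent.helper20.Inter
import Pool.Agent.helper20.MaxComm

namespace Pool.Agent.Helper20

open Set Function TopologicalSpace InnerProductSpace

section Code

/-- A second countable Hausdorff space injects into the Cantor space. -/
theorem exists_injective_cantor (Z : Type*) [TopologicalSpace Z] [T2Space Z]
    [SecondCountableTopology Z] : ∃ f : Z → (ℕ → Bool), Injective f := by
  classical
  obtain ⟨bs, hbc, _, hb⟩ := exists_countable_basis Z
  have : Countable bs := hbc.to_subtype
  obtain ⟨enc, henc⟩ := exists_injective_nat bs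
  refine ⟨fun z n => decide (∃ u : bs, enc u = n ∧ z ∈ u.1), ?_⟩
  intro z z' hzz'
  by_contra hne
  obtain ⟨U, V, hU, _, hzU, hzV, hUV⟩ := t2_separation hne
  obtain ⟨u, hu, hzu, huU⟩ := hb.exists_subset_of_mem_open hzU hU
  have h1 := congrFun hzz' (enc ⟨u, hu⟩)
  have h2 : (∃ w : bs, enc w = enc ⟨u, hu⟩ ∧ z ∈ w.1) := ⟨⟨u, hu⟩, rfl, hzu⟩
  simp only [h2, decide_true] at h1
  have h3 : (∃ w : bs, enc w = enc ⟨u, hu⟩ ∧ z' ∈ w.1) := by
    simpa using h1.symm
  obtain ⟨w, hw, hz'w⟩ := h3
  rw [henc hw] at hz'w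
  exact Set.disjoint_left.mp hUV (huU hz'w) hzV

variable {H : Type*} [NormedAddCommGroup H] [InnerProductSpace ℂ H] [CompleteSpace H]
  [SeparableSpace H]

/-- Evaluation of an operator on a fixed dense sequence. -/
noncomputable def evalDense (T : H →L[ℂ] H) : ℕ → H := fun k => T (denseSeq H k)

theorem evalDense_injective : Injective (evalDense : (H →L[ℂ] H) → ℕ → H) := by
  intro S T h
  have h1 : (S : H → H) ∘ denseSeq H = (T : H → H) ∘ denseSeq H := h
  have h2 : (S : H → H) = T := by
    apply S.continuous.ext_on (denseRange_denseSeq H) T.continuous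
    rintro _ ⟨k, rfl⟩
    exact congrFun h k
  exact DFunLike.coe_injective h2

omit [CompleteSpace H] in
theorem norm_le_one_of_proj' {p : H →L[ℂ] H} [CompleteSpace H] (hp : IsStarProjection p) (x : H) :
    ‖p x‖ ≤ ‖x‖ := by
  have h1 : ‖p x‖ ^ 2 = RCLike.re (inner ℂ (p x) x) := by
    have h2 : ContinuousLinearMap.adjoint p = p := hp.isSelfAdjoint
    have h3 : p (p x) = p x := by
      have := congrArg (fun T : H →L[ℂ] H => T x) hp.isIdempotentElem
      simpa using this
    rw [← inner_self_eq_norm_sq (𝕜 := ℂ), ← ContinuousLinearMap.adjoint_inner_left, h2, h3]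
  have h4 : ‖p x‖ ^ 2 ≤ ‖p x‖ * ‖x‖ := by
    rw [h1]
    exact (RCLike.re_le_norm _).trans (norm_inner_le_norm _ _)
  by_cases h : ‖p x‖ = 0
  · rw [h]; exact norm_nonneg _
  · have h5 : 0 < ‖p x‖ := lt_of_le_of_ne (norm_nonneg _) (Ne.symm h)
    rw [sq] at h4
    exact le_of_mul_le_mul_left h4 h5

/-- Every maximal commuting family of projections is the commutant of a sequence. -/
theorem exists_seq_commutant {D : Set (H →L[ℂ] H)} (hD : MaxComm D) :
    ∃ s : ℕ → (H →L[ℂ] H), ∀ p, p ∈ D ↔ (IsStarProjection p ∧ ∀ k, Commute p (s k)) := by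
  have hsep : IsSeparable (evalDense '' D) := IsSeparable.of_separableSpace _
  obtain ⟨t, htD, htc, hcl⟩ := hsep.exists_countable_dense_subset
  have htne : t.Nonempty := by
    by_contra h
    rw [Set.not_nonempty_iff_eq_empty] at h
    rw [h, closure_empty] at hcl
    exact hcl ⟨0, hD.zero_mem, rfl⟩
  obtain ⟨f, hf⟩ := htc.exists_eq_range htne
  have hch : ∀ k, ∃ p ∈ D, evalDense p = f k := by
    intro k
    have : f k ∈ t := by rw [hf]; exact mem_range_self k
    exact htD this
  choose s hsD hs using hch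
  refine ⟨s, fun p => ⟨fun hp => ⟨hD.proj p hp, fun k => hD.comm p hp _ (hsD k)⟩, ?_⟩⟩
  rintro ⟨hp, hpc⟩
  apply hD.max p hp
  intro q hq
  -- approximate `q` pointwise by the `s k`
  have happ : ∀ (x y : H) (ε : ℝ), 0 < ε → ∃ k, ‖q x - s k x‖ < ε ∧ ‖q y - s k y‖ < ε := by
    intro x y ε hε
    obtain ⟨m, hm⟩ := (denseRange_denseSeq H).exists_dist_lt x (by positivity : 0 < ε / 4)
    obtain ⟨m', hm'⟩ := (denseRange_denseSeq H).exists_dist_lt y (by positivity : 0 < ε / 4)
    have h1 : evalDense q ∈ closure t := hcl ⟨q, hq, rfl⟩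
    have hopen : IsOpen {g : ℕ → H | dist (g m) (evalDense q m) < ε / 4 ∧
        dist (g m') (evalDense q m') < ε / 4} := by
      apply IsOpen.inter
      · exact isOpen_lt ((continuous_apply m).dist continuous_const) continuous_const
      · exact isOpen_lt ((continuous_apply m').dist continuous_const) continuous_const
    obtain ⟨g, ⟨hg1, hg2⟩, hgt⟩ := mem_closure_iff.mp h1 _ hopen
      ⟨by rw [dist_self]; positivity, by rw [dist_self]; positivity⟩
    rw [hf] at hgt
    obtain ⟨k, rfl⟩ := hgt
    refine ⟨k, ?_, ?_⟩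
    · rw [← hs k] at hg1
      have h2 : ‖q x - q (denseSeq H m)‖ < ε / 4 := by
        rw [← map_sub]
        refine lt_of_le_of_lt (norm_le_one_of_proj' (hD.proj q hq) _) ?_
        rwa [← dist_eq_norm]
      have h3 : ‖s k (denseSeq H m) - s k x‖ < ε / 4 := by
        rw [← map_sub]
        refine lt_of_le_of_lt (norm_le_one_of_proj' (hD.proj _ (hsD k)) _) ?_
        rwa [← dist_eq_norm, dist_comm]
      have h4 : ‖q (denseSeq H m) - s k (denseSeq H m)‖ < ε / 4 := by
        rw [← dist_eq_norm, dist_comm]; exact hg1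
      calc ‖q x - s k x‖ = ‖(q x - q (denseSeq H m)) + (q (denseSeq H m) - s k (denseSeq H m))
            + (s k (denseSeq H m) - s k x)‖ := by congr 1; abel
        _ ≤ ‖q x - q (denseSeq H m)‖ + ‖q (denseSeq H m) - s k (denseSeq H m)‖
            + ‖s k (denseSeq H m) - s k x‖ := norm_add₃_le
        _ < ε := by linarith
    · rw [← hs k] at hg2
      have h2 : ‖q y - q (denseSeq H m')‖ < ε / 4 := by
        rw [← map_sub]
        refine lt_of_le_of_lt (norm_le_one_of_proj' (hD.proj q hq) _) ?_
        rwa [← dist_eq_norm]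
      have h3 : ‖s k (denseSeq H m') - s k y‖ < ε / 4 := by
        rw [← map_sub]
        refine lt_of_le_of_lt (norm_le_one_of_proj' (hD.proj _ (hsD k)) _) ?_
        rwa [← dist_eq_norm, dist_comm]
      have h4 : ‖q (denseSeq H m') - s k (denseSeq H m')‖ < ε / 4 := by
        rw [← dist_eq_norm, dist_comm]; exact hg2
      calc ‖q y - s k y‖ = ‖(q y - q (denseSeq H m')) + (q (denseSeq H m') - s k (denseSeq H m'))
            + (s k (denseSeq H m') - s k y)‖ := by congr 1; abel
        _ ≤ ‖q y - q (denseSeq H m')‖ + ‖q (denseSeq H m') - s k (denseSeq H m')‖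
            + ‖s k (denseSeq H m') - s k y‖ := norm_add₃_le
        _ < ε := by linarith
  ext x
  simp only [mul_apply_eq_comp]
  rw [← sub_eq_zero, ← norm_eq_zero]
  refine le_antisymm (le_of_forall_pos_lt_add fun ε hε => ?_) (norm_nonneg _)
  obtain ⟨k, hk1, hk2⟩ := happ x (p x) (ε / 2) (by positivity)
  have h5 : p (s k x) = s k (p x) := by
    have := congrArg (fun T : H →L[ℂ] H => T x) (hpc k)
    simpa using this
  have h6 : ‖p (q x) - p (s k x)‖ < ε / 2 := by
    rw [← map_sub]
    exact lt_of_le_of_lt (norm_le_one_of_proj' hp _) hk1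
  calc ‖p (q x) - q (p x)‖ = ‖(p (q x) - p (s k x)) + (s k (p x) - q (p x))‖ := by
        rw [h5]; congr 1; abel
    _ ≤ ‖p (q x) - p (s k x)‖ + ‖s k (p x) - q (p x)‖ := norm_add_le _ _
    _ < ε / 2 + ε / 2 := by
        rw [norm_sub_rev (s k (p x))]
        exact add_lt_add h6 hk2
    _ = 0 + ε := by ring

theorem exists_code : ∃ code : {D : Set (H →L[ℂ] H) // MaxComm D} → (ℕ → Bool),
    Injective code := by
  choose s hs using fun D : {D : Set (H →L[ℂ] H) // MaxComm D} => exists_seq_commutant D.2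
  have hsinj : Injective s := by
    intro D D' h
    apply Subtype.ext
    ext p
    rw [hs D p, hs D' p, h]
  obtain ⟨f, hf⟩ := exists_injective_cantor (ℕ → ℕ → H)
  refine ⟨fun D => f (fun k => evalDense (s D k)), ?_⟩
  intro D D' h
  apply hsinj
  funext k
  exact evalDense_injective (congrFun (hf h) k)

end Code

section Main

variable {B : BlockData} {H : Type*} [NormedAddCommGroup H] [InnerProductSpace ℂ H]
  [CompleteSpace H] [SeparableSpace H]

theorem exists_choice_avoid (b : HilbertBasis (Σ n, B.Y n) ℂ H) {D : Set (H →L[ℂ] H)}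
    (hD : MaxComm D) (i : ∀ n, Fin n → Bool) :
    ∃ c : ∀ n, B.Θ n, ∀ q ∈ D,
      IsCompactOperator ((1 - (Msub b i c).starProjection) * q : H →L[ℂ] H) →
      FiniteDimensional ℂ (LinearMap.range (q : H →ₗ[ℂ] H)) := by
  classical
  by_contra hcon
  push Not at hcon
  obtain ⟨c, hc1, hc2⟩ := exists_choices b (orthonormal_atomVec hD) i
  have hq : ∀ x : ℕ → Bool, ∃ q ∈ D,
      IsCompactOperator ((1 - (Msub b i (c x)).starProjection) * q : H →L[ℂ] H) ∧
      ¬ FiniteDimensional ℂ (LinearMap.range (q : H →ₗ[ℂ] H)) := by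
    intro x
    obtain ⟨q, h1, h2, h3⟩ := hcon (c x)
    exact ⟨q, h1, h2, h3⟩
  choose q hqD hqc hqinf using hq
  have hqfin : ∀ x, {p : atoms D | q x (atomVec p) = atomVec p}.Finite := by
    intro x
    by_contra hinf
    have hinf' : {p : atoms D | q x (atomVec p) = atomVec p}.Infinite := hinf
    let g := hinf'.natEmbedding
    have ho : Orthonormal ℂ (fun k : ℕ => atomVec (g k).1) :=
      (orthonormal_atomVec hD).comp (fun k => (g k).1)
        (fun k l h => g.injective (Subtype.ext h))
    obtain ⟨k, hk⟩ := exists_small_of_orthonormal (hqc x) ho (η := 1 / 2) (by norm_num)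
    have h1 : q x (atomVec (g k).1) = atomVec (g k).1 := (g k).2
    simp only [mul_apply_eq_comp, h1] at hk
    have h2 := hc2 x (g k).1
    have h3 := norm_starProjection_sq_ge (Msub b i (c x)) (atomVec (g k).1)
    have h4 : (1 - (Msub b i (c x)).starProjection) (atomVec (g k).1)
        = atomVec (g k).1 - (Msub b i (c x)).starProjection (atomVec (g k).1) := by simp
    rw [h4] at hk
    rw [h3, norm_atomVec] at h2
    have h5 : ‖atomVec (g k).1 - (Msub b i (c x)).starProjection (atomVec (g k).1)‖ ^ 2 < (1 / 2) ^ 2 := by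
      gcongr
    norm_num at h2 h5
    linarith
  have hr : ∀ x, ∃ r ∈ D, r ≠ 0 ∧ q x * r = r ∧ ∀ p : atoms D, r (atomVec p) ≠ atomVec p :=
    fun x => exists_remove_atoms hD (hqD x) (hqinf x) (hqfin x)
  choose r hrD hr0 hqr hratom using hr
  have hzero : ∀ x x', x ≠ x' → r x * r x' = 0 := by
    intro x x' hxx'
    by_contra hne
    have hmem : r x * r x' ∈ D := hD.mul_mem (hrD x) (hrD x')
    have hqx : ∀ z ∈ LinearMap.range ((r x * r x' : H →L[ℂ] H) : H →ₗ[ℂ] H), q x z = z := by
      rintro _ ⟨w, rfl⟩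
      have := congrArg (fun T : H →L[ℂ] H => T (r x' w)) (hqr x)
      simpa using this
    have hqx' : ∀ z ∈ LinearMap.range ((r x * r x' : H →L[ℂ] H) : H →ₗ[ℂ] H), q x' z = z := by
      rintro _ ⟨w, rfl⟩
      have h1 : (r x * r x') w = r x' (r x w) := by
        have := congrArg (fun T : H →L[ℂ] H => T w) (hD.comm _ (hrD x) _ (hrD x'))
        simpa using this
      have h2 := congrArg (fun T : H →L[ℂ] H => T (r x w)) (hqr x')
      have h3 : ((r x * r x' : H →L[ℂ] H) : H →ₗ[ℂ] H) w = r x' (r x w) := h1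
      rw [h3]
      simpa using h2
    have hfin : FiniteDimensional ℂ
        (LinearMap.range ((r x * r x' : H →L[ℂ] H) : H →ₗ[ℂ] H)) := by
      apply finiteDimensional_of_common b i (c x) (c x') (hc1 x x' hxx') _ _ _ (hqc x) (hqc x')
      · intro z hz
        simp [hqx z hz]
      · intro z hz
        simp [hqx' z hz]
    obtain ⟨p, hp⟩ := exists_atom_le hD hmem hne hfin
    apply hratom x p
    have h1 : (r x * (r x * r x')) (atomVec p) = (r x * r x') (atomVec p) := by
      rw [← mul_assoc, (hD.proj _ (hrD x)).isIdempotentElem.eq]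
    rw [mul_apply_eq_comp, hp] at h1
    exact h1
  -- unit vectors in the ranges of the `r x`
  have hv : ∀ x, ∃ v : H, ‖v‖ = 1 ∧ r x v = v := by
    intro x
    obtain ⟨w, hw⟩ : ∃ w, r x w ≠ 0 := by
      by_contra h
      push Not at h
      exact hr0 x (ContinuousLinearMap.ext h)
    have hn : ‖r x w‖ ≠ 0 := norm_ne_zero_iff.mpr hw
    refine ⟨((‖r x w‖⁻¹ : ℝ) : ℂ) • r x w, ?_, ?_⟩
    · rw [norm_smul, Complex.norm_real, norm_inv, norm_norm, inv_mul_cancel₀ hn]
    · rw [map_smul]
      have := congrArg (fun T : H →L[ℂ] H => T w) (hD.proj _ (hrD x)).isIdempotentElem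
      simp only [mul_apply_eq_comp] at this
      rw [this]
  choose v hv1 hv2 using hv
  have ho : Orthonormal ℂ v := by
    refine ⟨hv1, ?_⟩
    intro x x' hxx'
    have h1 : ContinuousLinearMap.adjoint (r x) = r x := (hD.proj _ (hrD x)).isSelfAdjoint
    have h2 : r x (v x') = 0 := by
      rw [← hv2 x']
      have := congrArg (fun T : H →L[ℂ] H => T (v x')) (hzero x x' hxx')
      simpa using this
    rw [← hv2 x, ← h1, ContinuousLinearMap.adjoint_inner_left, h2, inner_zero_right]
  have hcount : Countable (ℕ → Bool) := countable_of_orthonormal ho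
  obtain ⟨g, hg⟩ := exists_surjective_nat (ℕ → Bool)
  obtain ⟨n, hn⟩ := hg (fun n => !(g n n))
  have h1 := congrFun hn n
  cases h2 : g n n <;> simp [h2] at h1

/-- The main operator-theoretic construction: closed subspaces `M D`, one for each maximal
commuting family of projections `D`, such that all finite intersections are infinite-dimensional
and no infinite rank projection in `D` is essentially below `M D`. -/
theorem exists_family (hinf : ¬ FiniteDimensional ℂ H) :
    ∃ M : {D : Set (H →L[ℂ] H) // MaxComm D} → Submodule ℂ H,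
      (∀ D, IsClosed (M D : Set H)) ∧
      (∀ E : Finset {D : Set (H →L[ℂ] H) // MaxComm D},
        ¬ FiniteDimensional ℂ (⨅ D ∈ E, M D : Submodule ℂ H)) ∧
      ∀ D : {D : Set (H →L[ℂ] H) // MaxComm D}, ∀ q ∈ D.1, ∀ P : H →L[ℂ] H,
        IsStarProjection P → LinearMap.range (P : H →ₗ[ℂ] H) = M D →
        IsCompactOperator ((1 - P) * q : H →L[ℂ] H) →
        FiniteDimensional ℂ (LinearMap.range (q : H →ₗ[ℂ] H)) := by
  obtain ⟨B⟩ := nonempty_blockData
  have : Infinite (Σ n, B.Y n) := by
    apply Infinite.of_injective (fun n : ℕ => (⟨n, Classical.arbitrary _⟩ : Σ n, B.Y n))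
    intro n m h
    exact (Sigma.mk.inj h).1
  obtain ⟨b⟩ := exists_hilbertBasis_index hinf (Σ n, B.Y n)
  obtain ⟨code, hcode⟩ := exists_code (H := H)
  choose c hc using fun D : {D : Set (H →L[ℂ] H) // MaxComm D} =>
    exists_choice_avoid b D.2 (fun n j => code D j)
  refine ⟨fun D => Msub b (fun n j => code D j) (c D), fun D => isClosed_Msub b _ _,
    fun E => infinite_dimensional_iInf b code hcode c E, ?_⟩
  intro D q hq P hP hPr hcomp
  apply hc D q hq
  have : P = (Msub b (fun n j => code D j) (c D)).starProjection := by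
    apply ContinuousLinearMap.IsStarProjection.ext hP isStarProjection_starProjection
    rw [Submodule.range_starProjection]
    exact hPr
  rw [← this]
  exact hcomp

end Main

end Pool.Agent.Helper20
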