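import Pool.Agent.helper20.Avoid

namespace Pool.Agent.Helper20

open Finset Function

variable {B : BlockData} {H : Type*} [NormedAddCommGroup H] [InnerProductSpace ℂ H]
variable (b : HilbertBasis (Σ n, B.Y n) ℂ H)

instance (n : ℕ) : Nonempty (B.Θ n) := by
  rw [← Fintype.card_pos_iff]
  refine lt_of_lt_of_le ?_ (B.card_le n)
  have : 0 < Fintype.card (B.Y n) := Fintype.card_pos
  positivity

theorem norm_starProjection_sq_ge [CompleteSpace H] (K : Submodule ℂ H) [K.HasOrthogonalProjection]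
    (x : H) : ‖K.starProjection x‖ ^ 2 = ‖x‖ ^ 2 - ‖x - K.starProjection x‖ ^ 2 := by
  have h := K.norm_sq_eq_add_norm_sq_starProjection x
  rw [Submodule.starProjection_orthogonal'] at h
  have h2 : (1 - K.starProjection) x = x - K.starProjection x := by simp
  have h3 : ‖x‖ ^ 2 = ‖K.starProjection x‖ ^ 2 + ‖x - K.starProjection x‖ ^ 2 := by
    simpa [h2] using h
  linarith

theorem no_common_aux [CompleteSpace H] (i : ∀ n, Fin n → Bool) (c c' : ∀ n, B.Θ n) (n₀ : ℕ)
    (hne : ∀ n ≥ n₀, c n ≠ c' n) (x : H) (hx : ‖x‖ = 1)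
    (h1 : ‖x - (Msub b i c).starProjection x‖ ≤ 1 / 8)
    (h2 : ‖x - (Msub b i c').starProjection x‖ ≤ 1 / 8)
    (h3 : ∑ n ∈ Finset.range n₀, ‖blk b n x‖ ^ 2 ≤ 1 / 16) : False := by
  classical
  have e1 := norm_starProjection_sq_ge (Msub b i c) x
  have e2 := norm_starProjection_sq_ge (Msub b i c') x
  have f1 := norm_sq_proj_le b i c x
  have f2 := norm_sq_proj_le b i c' x
  have g1 : ‖x - (Msub b i c).starProjection x‖ ^ 2 ≤ (1 / 8) ^ 2 := by gcongr
  have g2 : ‖x - (Msub b i c').starProjection x‖ ^ 2 ≤ (1 / 8) ^ 2 := by gcongr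
  rw [hx] at e1 e2
  have s1 := (summable_mass b i c x).hasSum
  have s2 := (summable_mass b i c' x).hasSum
  have s3 := hasSum_norm_blk b x
  rw [hx] at s3
  let t : ℕ → ℝ := fun n => if n ∈ Finset.range n₀ then 1 / 2 * ‖blk b n x‖ ^ 2 else 0
  have s4 : HasSum t (∑ n ∈ Finset.range n₀, t n) :=
    hasSum_sum_of_ne_finset_zero (fun n hn => by simp only [t, hn, if_false])
  have s5 : ∑ n ∈ Finset.range n₀, t n ≤ 1 / 2 * (1 / 16) := by
    have : ∑ n ∈ Finset.range n₀, t n = 1 / 2 * ∑ n ∈ Finset.range n₀, ‖blk b n x‖ ^ 2 := by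
      rw [Finset.mul_sum]
      apply Finset.sum_congr rfl
      intro n hn
      simp only [t, hn, if_true]
    rw [this]
    gcongr
  have key : ∀ n, mass b i c x n + mass b i c' x n ≤ 3 / 2 * ‖blk b n x‖ ^ 2 + t n := by
    intro n
    by_cases hn : n ∈ Finset.range n₀
    · have k1 := mass_le b i c x n
      have k2 := mass_le b i c' x n
      simp only [t, hn, if_true]
      linarith
    · have hn' : n₀ ≤ n := by
        rw [Finset.mem_range] at hn; omega
      simp only [t, hn, if_false, add_zero]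
      have k := sum_norm_sq_starProjection_le (fun d : B.Θ n => B.K n (i n) d) (η := 1 / 4)
        (by norm_num) (fun d d' hdd u hu v hv => B.almost n (i n) d d' hdd u hu v hv)
        {c n, c' n} (blk b n x)
      rw [Finset.sum_pair (hne n hn'), Finset.card_pair (hne n hn')] at k
      unfold mass
      refine k.trans (le_of_eq ?_)
      norm_num
  have fin := hasSum_le key (s1.add s2) ((s3.mul_left (3 / 2)).add s4)
  norm_num at e1 e2 fin s5 g1 g2
  linarith

/-- the positive finite rank operator attached to a block -/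
noncomputable def blkOp [CompleteSpace H] (n : ℕ) : H →L[ℂ] H :=
  (ContinuousLinearMap.adjoint (blk b n)) ∘L (blk b n)

theorem blkOp_compact [CompleteSpace H] (n : ℕ) : IsCompactOperator (blkOp b n) := by
  have h1 : IsCompactOperator (blk b n) := isCompactOperator_of_locallyCompactSpace_dom (blk b n)
  exact h1.clm_comp (ContinuousLinearMap.adjoint (blk b n))

theorem norm_blk_sq_le [CompleteSpace H] (n : ℕ) (x : H) (hx : ‖x‖ = 1) :
    ‖blk b n x‖ ^ 2 ≤ ‖blkOp b n x‖ := by
  have h1 : ‖blk b n x‖ ^ 2 = RCLike.re (inner ℂ (blkOp b n x) x) := by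
    unfold blkOp
    rw [ContinuousLinearMap.comp_apply, ContinuousLinearMap.adjoint_inner_left,
      inner_self_eq_norm_sq]
  rw [h1]
  calc _ ≤ ‖inner ℂ (blkOp b n x) x‖ := RCLike.re_le_norm _
    _ ≤ ‖blkOp b n x‖ * ‖x‖ := norm_inner_le_norm _ _
    _ = _ := by rw [hx, mul_one]

/-- If `K` is essentially contained in both `Msub b i c` and `Msub b i c'`, where `c` and `c'` are
eventually different, then `K` is finite-dimensional. -/
theorem finiteDimensional_of_common [CompleteSpace H] (i : ∀ n, Fin n → Bool) (c c' : ∀ n, B.Θ n)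
    (hne : ∃ n₀, ∀ n ≥ n₀, c n ≠ c' n) (K : Submodule ℂ H) (A A' : H →L[ℂ] H)
    (hA : IsCompactOperator A) (hA' : IsCompactOperator A')
    (hAK : ∀ x ∈ K, A x = x - (Msub b i c).starProjection x)
    (hAK' : ∀ x ∈ K, A' x = x - (Msub b i c').starProjection x) : FiniteDimensional ℂ K := by
  obtain ⟨n₀, hn₀⟩ := hne
  by_contra hK
  let T : Fin (n₀ + 2) → (H →L[ℂ] H) :=
    Fin.cons A (Fin.cons A' (fun n : Fin n₀ => blkOp b n))
  have hT : ∀ j, IsCompactOperator (T j) := by
    intro j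
    refine Fin.cases ?_ (fun j => ?_) j
    · exact hA
    · refine Fin.cases ?_ (fun j => ?_) j
      · exact hA'
      · exact blkOp_compact b j
  obtain ⟨x, hxK, hx1, hx⟩ := exists_unit_compact_small hK T hT
    (η := 1 / (16 * (n₀ + 1))) (by positivity)
  have hη : (1 : ℝ) / (16 * (n₀ + 1)) ≤ 1 / 8 := by
    rw [div_le_div_iff₀ (by positivity) (by norm_num)]
    have : (0 : ℝ) ≤ n₀ := by positivity
    linarith
  refine no_common_aux b i c c' n₀ hn₀ x hx1 ?_ ?_ ?_
  · rw [← hAK x hxK]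
    exact (hx 0).le.trans hη
  · rw [← hAK' x hxK]
    exact (hx 1).le.trans hη
  · have h1 : ∀ n ∈ Finset.range n₀, ‖blk b n x‖ ^ 2 ≤ 1 / (16 * (n₀ + 1)) := by
      intro n hn
      rw [Finset.mem_range] at hn
      refine (norm_blk_sq_le b n x hx1).trans ?_
      exact (hx (Fin.succ (Fin.succ ⟨n, hn⟩))).le
    calc ∑ n ∈ Finset.range n₀, ‖blk b n x‖ ^ 2
        ≤ ∑ n ∈ Finset.range n₀, (1 : ℝ) / (16 * (n₀ + 1)) := Finset.sum_le_sum h1
      _ = n₀ * (1 / (16 * (n₀ + 1))) := by simp
      _ ≤ 1 / 16 := by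
          rw [mul_one_div, div_le_div_iff₀ (by positivity) (by norm_num)]
          linarith

/-- The vector with block `n` equal to `ψ` and all other blocks zero. -/
noncomputable def vec (n : ℕ) (ψ : EuclideanSpace ℂ (B.Y n)) : H := ∑ y, ψ y • b ⟨n, y⟩

theorem blk_vec_self (n : ℕ) (ψ : EuclideanSpace ℂ (B.Y n)) : blk b n (vec b n ψ) = ψ := by
  classical
  ext y
  rw [blk_apply, vec, inner_sum, Finset.sum_eq_single y]
  · rw [inner_smul_right, inner_self_eq_norm_sq_to_K, b.orthonormal.1]; simp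
  · intro y' _ hy'
    rw [inner_smul_right, b.orthonormal.2, mul_zero]
    intro h
    exact hy' (eq_of_heq (Sigma.mk.inj h).2).symm
  · simp

theorem blk_vec_ne {n m : ℕ} (hnm : m ≠ n) (ψ : EuclideanSpace ℂ (B.Y n)) :
    blk b m (vec b n ψ) = 0 := by
  ext y
  rw [blk_apply, vec, inner_sum]
  simp only [PiLp.zero_apply]
  apply Finset.sum_eq_zero
  intro y' _
  rw [inner_smul_right, b.orthonormal.2, mul_zero]
  intro h
  exact hnm (Sigma.mk.inj h).1

theorem infinite_dimensional_iInf [CompleteSpace H] {ι : Type*} (code : ι → ℕ → Bool)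
    (hcode : Injective code) (c : ι → ∀ n, B.Θ n) (E : Finset ι) :
    ¬ FiniteDimensional ℂ (⨅ a ∈ E, Msub b (fun n j => code a j) (c a) : Submodule ℂ H) := by
  classical
  intro hfin
  -- eventually all codes in `E` are distinct
  have hdist : ∃ n₀, ∀ n ≥ n₀, ∀ a ∈ E, ∀ a' ∈ E, a ≠ a' →
      (fun j : Fin n => code a j) ≠ (fun j : Fin n => code a' j) := by
    have h1 : ∀ p : ι × ι, ∃ m, p.1 ≠ p.2 → code p.1 m ≠ code p.2 m := by
      rintro ⟨a, a'⟩
      by_cases h : a = a'
      · exact ⟨0, fun h' => absurd h h'⟩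
      · obtain ⟨m, hm⟩ := Function.ne_iff.mp (fun h' => h (hcode h') : code a ≠ code a')
        exact ⟨m, fun _ => hm⟩
    choose m hm using h1
    refine ⟨(E ×ˢ E).sup m + 1, fun n hn a ha a' ha' haa' heq => ?_⟩
    have h2 : m (a, a') ≤ (E ×ˢ E).sup m :=
      Finset.le_sup (Finset.mem_product.mpr ⟨ha, ha'⟩)
    exact hm (a, a') haa' (congrFun heq ⟨m (a, a'), by omega⟩)
  obtain ⟨n₀, hn₀⟩ := hdist
  have hψ : ∀ n, ∃ ψ : EuclideanSpace ℂ (B.Y n), ψ ≠ 0 ∧ (n₀ ≤ n → ∀ a ∈ E,
      ψ ∈ B.K n (fun j => code a j) (c a n)) := by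
    intro n
    let θ : (Fin n → Bool) → B.Θ n := fun s =>
      if h : ∃ a ∈ E, (fun j : Fin n => code a j) = s then c h.choose n else Classical.arbitrary _
    obtain ⟨ψ, hψ0, hψ⟩ := B.inter n θ
    refine ⟨ψ, hψ0, fun hn a ha => ?_⟩
    have h1 := hψ (fun j => code a j)
    have h2 : ∃ a' ∈ E, (fun j : Fin n => code a' j) = (fun j : Fin n => code a j) := ⟨a, ha, rfl⟩
    have h3 : θ (fun j => code a j) = c a n := by
      simp only [θ]
      rw [dif_pos h2]
      have h4 : h2.choose = a := by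
        by_contra h
        exact hn₀ n hn _ h2.choose_spec.1 a ha h h2.choose_spec.2
      rw [h4]
    rwa [h3] at h1
  choose ψ hψ0 hψ1 using hψ
  let x : ℕ → H := fun k => vec b (n₀ + k) (ψ (n₀ + k))
  have hxmem : ∀ k, x k ∈ (⨅ a ∈ E, Msub b (fun n j => code a j) (c a) : Submodule ℂ H) := by
    intro k
    rw [Submodule.mem_iInf]
    intro a
    rw [Submodule.mem_iInf]
    intro ha
    rw [mem_Msub]
    intro m
    by_cases hm : m = n₀ + k
    · subst hm
      rw [blk_vec_self]
      exact hψ1 _ (by omega) a ha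
    · rw [blk_vec_ne b hm]
      exact Submodule.zero_mem _
  have hx0 : ∀ k, x k ≠ 0 := by
    intro k hk
    apply hψ0 (n₀ + k)
    rw [← blk_vec_self b (n₀ + k) (ψ (n₀ + k))]
    have : vec b (n₀ + k) (ψ (n₀ + k)) = 0 := hk
    rw [this, map_zero]
  have horth : Pairwise fun k l => inner ℂ (x k) (x l) = 0 := by
    intro k l hkl
    have h1 := hasSum_inner_blk b (x k) (x l)
    have h2 : (fun n => inner ℂ (blk b n (x k)) (blk b n (x l))) = fun _ => 0 := by
      funext n
      by_cases hn : n = n₀ + k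
      · have hn' : n ≠ n₀ + l := by omega
        simp only [x]
        rw [blk_vec_ne b hn', inner_zero_right]
      · simp only [x]
        rw [blk_vec_ne b hn, inner_zero_left]
    rw [h2] at h1
    exact h1.unique hasSum_zero
  have hli : LinearIndependent ℂ x := linearIndependent_of_ne_zero_of_inner_eq_zero hx0 horth
  let x' : ℕ → (⨅ a ∈ E, Msub b (fun n j => code a j) (c a) : Submodule ℂ H) :=
    fun k => ⟨x k, hxmem k⟩
  have hli' : LinearIndependent ℂ x' := by
    apply LinearIndependent.of_comp (Submodule.subtype _)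
    exact hli
  have := hli'.finite
  exact not_finite ℕ

end Pool.Agent.Helper20
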